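import Pool.Agent.ART.RS.St

/-!
# ART/RS, module CCF: complex conjugations
-/

set_option autoImplicit false

namespace ART

open scoped ComplexConjugate
open NumberField IntermediateField

theorem thm_RCCF : St_RCCF := by
  intro k _ _ c hc
  obtain ⟨j, hj⟩ := hc
  refine ⟨fun x => j.injective ?_, fun g => ?_, ?_⟩
  · rw [hj, hj, Complex.conj_conj]
  · refine ⟨j.comp (g⁻¹ : AlgebraicClosure k ≃ₐ[k] AlgebraicClosure k).toRingEquiv.toRingHom,
      fun x => ?_⟩
    have h1 : (g⁻¹ : AlgebraicClosure k ≃ₐ[k] AlgebraicClosure k) ((g * c * g⁻¹) x) = c (g⁻¹ x) := by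
      rw [← AlgEquiv.mul_apply]
      have : g⁻¹ * (g * c * g⁻¹) = c * g⁻¹ := by group
      rw [this, AlgEquiv.mul_apply]
    have h2 := hj ((g⁻¹ : AlgebraicClosure k ≃ₐ[k] AlgebraicClosure k) x)
    rw [← h1] at h2
    exact h2
  · intro K _ _ hK φ x
    apply j.injective
    rw [hj]
    refine hK (j.comp φ.toRingHom) (fun a => ?_) x
    have h3 : φ (algebraMap k K a) = algebraMap k (AlgebraicClosure k) a := φ.commutes a
    have h4 := hj (algebraMap k (AlgebraicClosure k) a)
    rw [AlgEquiv.commutes] at h4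
    change conj (j (φ (algebraMap k K a))) = j (φ (algebraMap k K a))
    rw [h3]
    exact h4.symm

end ART
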