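import Pool.Agent.ART.RS.St

/-!
# ART/RS: the converse (helper82)

A relation with fields unramified at the infinite places makes the complex conjugations commute on the
conjugates of `F(√d)`.
-/

set_option autoImplicit false

namespace ART

open scoped ComplexConjugate
open NumberField IntermediateField Polynomial

private lemma CNV_fin {k F M : Type} [Field k] [Field F] [Field M] [Algebra k F] [Algebra k M]
    [FiniteDimensional k F] (d : F) : Finite (Pr k F M d) := by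
  classical
  have h : ∀ φ : F →ₐ[k] M, {z : M | z ^ 2 = φ d}.Finite := by
    intro φ
    have h1 : {z : M | z ^ 2 = φ d} ⊆ ((X ^ 2 - C (φ d) : M[X]).roots.toFinset : Set M) := by
      intro z hz
      have h2 : z ^ 2 = φ d := hz
      rw [Finset.mem_coe, Multiset.mem_toFinset, mem_roots (X_pow_sub_C_ne_zero (by norm_num) _)]
      simp [h2]
    exact (Finset.finite_toSet _).subset h1
  have h3 : ∀ φ : F →ₐ[k] M, Finite {z : M // z ^ 2 = φ d} := fun φ => (h φ).to_subtype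
  exact Finite.of_injective (β := Σ φ : F →ₐ[k] M, {z : M // z ^ 2 = φ d})
    (fun x => ⟨x.1.1, x.1.2, x.2⟩) (by
      rintro ⟨⟨φ, z⟩, hx⟩ ⟨⟨φ', z'⟩, hx'⟩ hxy
      simp only [Sigma.mk.injEq] at hxy
      obtain ⟨h4, h5⟩ := hxy
      subst h4
      simpa using h5)

private lemma CNV_ne {k F M : Type} [Field k] [Field F] [Field M] [CharZero M] [Algebra k F]
    [Algebra k M] {d : F} (hd : d ≠ 0) (x : Pr k F M d) : x.1.2 ≠ - x.1.2 := by
  intro h
  have h1 : x.1.2 = 0 := self_eq_neg.1 h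
  have h2 := x.2
  rw [h1, zero_pow two_ne_zero] at h2
  exact hd ((map_eq_zero x.1.1).1 h2.symm)

/-- the value at an element which fixes all pairs -/
private lemma CNV_all {k F M : Type} [Field k] [Field F] [Field M] [CharZero M] [Algebra k F]
    [Algebra k M] {d : F} (hd : d ≠ 0) (g : M ≃ₐ[k] M)
    (hg : ∀ x : Pr k F M d, (g : M →ₐ[k] M).comp x.1.1 = x.1.1 ∧ g x.1.2 = x.1.2) :
    sgn d g = Nat.card (Pr k F M d) := by
  unfold sgn
  have h1 : Nat.card {x : Pr k F M d // (g : M →ₐ[k] M).comp x.1.1 = x.1.1 ∧ g x.1.2 = - x.1.2} =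
      0 := by
    rw [Nat.card_eq_zero]
    left
    constructor
    rintro ⟨x, hx⟩
    exact CNV_ne hd x ((hg x).2.symm.trans hx.2)
  have h2 : Nat.card {x : Pr k F M d // (g : M →ₐ[k] M).comp x.1.1 = x.1.1 ∧ g x.1.2 = x.1.2} =
      Nat.card (Pr k F M d) :=
    Nat.card_congr (Equiv.subtypeUnivEquiv hg)
  rw [h1, h2]
  simp

private lemma CNV_conv {k F M : Type} [Field k] [Field F] [Field M] [CharZero M] [Algebra k F]
    [Algebra k M] [FiniteDimensional k F] {d : F} (g : M ≃ₐ[k] M)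
    (hg : sgn d g = Nat.card (Pr k F M d)) (x : Pr k F M d) :
    (g : M →ₐ[k] M).comp x.1.1 = x.1.1 ∧ g x.1.2 = x.1.2 := by
  have hfin : Finite (Pr k F M d) := CNV_fin d
  unfold sgn at hg
  have h1 : Nat.card (Pr k F M d) ≤
      Nat.card {x : Pr k F M d // (g : M →ₐ[k] M).comp x.1.1 = x.1.1 ∧ g x.1.2 = x.1.2} := by
    have : (0 : ℤ) ≤ (Nat.card {x : Pr k F M d //
      (g : M →ₐ[k] M).comp x.1.1 = x.1.1 ∧ g x.1.2 = - x.1.2} : ℤ) := Int.natCast_nonneg _
    omega
  have h2 : Function.Bijective (Subtype.val :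
      {x : Pr k F M d // (g : M →ₐ[k] M).comp x.1.1 = x.1.1 ∧ g x.1.2 = x.1.2} → Pr k F M d) := by
    rw [Nat.bijective_iff_injective_and_card]
    exact ⟨Subtype.val_injective, le_antisymm
      (Nat.card_le_card_of_injective _ Subtype.val_injective) h1⟩
  obtain ⟨y, rfl⟩ := h2.2 x
  exact y.2

/-- [CNV] The converse. -/
theorem thm_RCNV (h : St_RCCF) : St_RCNV := by
  intro k _ _ F _ _ _ d ι _ K _ _ _ δ n hd hδ hRO hrel c c' hc hc' p
  have hk : FiniteDimensional k F := Module.Finite.of_restrictScalars_finite ℚ k F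
  obtain ⟨hcc, -, hcK⟩ := h k c hc
  obtain ⟨hcc', -, hcK'⟩ := h k c' hc'
  obtain ⟨t, ht⟩ : ∃ t : AlgebraicClosure k ≃ₐ[k] AlgebraicClosure k,
      ∀ x, t x = c (c' (c (c' x))) := ⟨c * c' * c * c', fun x => rfl⟩
  have h1 : ∀ i, ∀ x : Pr k (K i) (AlgebraicClosure k) (δ i),
      (t : AlgebraicClosure k →ₐ[k] AlgebraicClosure k).comp x.1.1 = x.1.1 ∧ t x.1.2 = x.1.2 := by
    intro i x
    have e1 : ∀ u, c (x.1.1 u) = x.1.1 u := fun u => hcK (K i) (hRO i) x.1.1 u
    have e2 : ∀ u, c' (x.1.1 u) = x.1.1 u := fun u => hcK' (K i) (hRO i) x.1.1 u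
    refine ⟨?_, ?_⟩
    · ext u
      change t (x.1.1 u) = x.1.1 u
      rw [ht, e2, e1, e2, e1]
    · have e3 : c x.1.2 = x.1.2 ∨ c x.1.2 = - x.1.2 := by
        apply sq_eq_sq_iff_eq_or_eq_neg.1
        rw [← map_pow, x.2, e1]
      have e4 : c' x.1.2 = x.1.2 ∨ c' x.1.2 = - x.1.2 := by
        apply sq_eq_sq_iff_eq_or_eq_neg.1
        rw [← map_pow, x.2, e2]
      rw [ht]
      rcases e3 with e3 | e3 <;> rcases e4 with e4 | e4 <;> simp [e3, e4]
  have h2 : ∀ i, sgn (δ i) t =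
      sgn (δ i) (1 : AlgebraicClosure k ≃ₐ[k] AlgebraicClosure k) := by
    intro i
    rw [CNV_all (hδ i) t (h1 i), CNV_all (hδ i) 1 fun x => ⟨by ext u; rfl, rfl⟩]
  have h3 : sgn d t = Nat.card (Pr k F (AlgebraicClosure k) d) := by
    rw [← CNV_all hd (1 : AlgebraicClosure k ≃ₐ[k] AlgebraicClosure k)
      fun x => ⟨by ext u; rfl, rfl⟩, hrel, hrel]
    exact Finset.sum_congr rfl fun i _ => by rw [h2 i]
  obtain ⟨h4, h5⟩ := CNV_conv t h3 p
  have h6 : ∀ x, t x = x → c (c' x) = c' (c x) := by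
    intro x hx
    rw [ht] at hx
    have e1 : c' (c (c' x)) = c x := by
      rw [← hcc (c' (c (c' x))), hx]
    rw [← hcc' (c (c' x)), e1]
  refine ⟨fun x => h6 _ ?_, h6 _ h5⟩
  exact DFunLike.congr_fun h4 x

end ART
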