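import Pool.Agent.ART.RS.St

/-!
# ART/RS/FLD: the character of `k(y ^ 2)` with `δ = y ^ 2` in terms of the conjugates of `y` and `- y`
-/

set_option autoImplicit false

namespace ART

open NumberField IntermediateField

namespace RFLD

variable {k : Type} [Field k]

lemma ext_gen {y : AlgebraicClosure k} {f f' : k⟮y ^ 2⟯ →ₐ[k] AlgebraicClosure k}
    (h : f (AdjoinSimple.gen k (y ^ 2)) = f' (AdjoinSimple.gen k (y ^ 2))) : f = f' := by
  refine IntermediateField.algHom_ext_of_eq_adjoin k (S := k⟮y ^ 2⟯) rfl ?_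
  intro x hx
  have hx' : x = y ^ 2 := hx
  subst hx'
  exact h

lemma exists_conj (y : AlgebraicClosure k) (f : k⟮y ^ 2⟯ →ₐ[k] AlgebraicClosure k)
    (z : AlgebraicClosure k) (hz : z ^ 2 = f (AdjoinSimple.gen k (y ^ 2))) :
    ∃ σ : AlgebraicClosure k ≃ₐ[k] AlgebraicClosure k, z = σ y ∨ z = -σ y := by
  have hlift := AlgHom.liftNormal_commutes f (AlgebraicClosure k) (AdjoinSimple.gen k (y ^ 2))
  have hbij : Function.Bijective (f.liftNormal (AlgebraicClosure k)) :=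
    Algebra.IsAlgebraic.algHom_bijective _
  refine ⟨AlgEquiv.ofBijective (f.liftNormal (AlgebraicClosure k)) hbij, ?_⟩
  have h1 : z ^ 2 = ((f.liftNormal (AlgebraicClosure k)) y) ^ 2 := by
    rw [hz, ← map_pow]
    exact hlift.symm
  exact sq_eq_sq_iff_eq_or_eq_neg.mp h1

lemma card_eq (y : AlgebraicClosure k) (g : AlgebraicClosure k ≃ₐ[k] AlgebraicClosure k)
    (e : AlgebraicClosure k → AlgebraicClosure k) (he : ∀ z, (e z) ^ 2 = z ^ 2) :
    Nat.card {x : Pr k (k⟮y ^ 2⟯) (AlgebraicClosure k) (AdjoinSimple.gen k (y ^ 2)) //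
      (g : AlgebraicClosure k →ₐ[k] AlgebraicClosure k).comp x.1.1 = x.1.1 ∧ g x.1.2 = e x.1.2} =
    Nat.card {z : AlgebraicClosure k // (∃ σ : AlgebraicClosure k ≃ₐ[k] AlgebraicClosure k,
        z = σ y ∨ z = -σ y) ∧ g z = e z} := by
  refine Nat.card_congr (Equiv.ofBijective (fun x => ⟨x.1.1.2,
    exists_conj y x.1.1.1 x.1.1.2 x.1.2, x.2.2⟩) ⟨?_, ?_⟩)
  · rintro ⟨⟨⟨f, z⟩, hz⟩, h1, h2⟩ ⟨⟨⟨f', z'⟩, hz'⟩, h1', h2'⟩ h
    have hzz : z = z' := congrArg (fun w => w.1) h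
    subst hzz
    have hff : f = f' := ext_gen ((hz.symm.trans hz') : f _ = f' _)
    subst hff
    rfl
  · rintro ⟨z, ⟨σ, hσ⟩, hg⟩
    have hz : z ^ 2 = ((σ : AlgebraicClosure k →ₐ[k] AlgebraicClosure k).comp
        (k⟮y ^ 2⟯).val) (AdjoinSimple.gen k (y ^ 2)) := by
      have h1 : ((σ : AlgebraicClosure k →ₐ[k] AlgebraicClosure k).comp
        (k⟮y ^ 2⟯).val) (AdjoinSimple.gen k (y ^ 2)) = σ (y ^ 2) := rfl
      rw [h1, map_pow]
      rcases hσ with h | h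
      · rw [h]
      · rw [h, neg_sq]
    refine ⟨⟨⟨((σ : AlgebraicClosure k →ₐ[k] AlgebraicClosure k).comp (k⟮y ^ 2⟯).val, z), hz⟩, ?_, hg⟩, rfl⟩
    refine ext_gen ?_
    change g (((σ : AlgebraicClosure k →ₐ[k] AlgebraicClosure k).comp
        (k⟮y ^ 2⟯).val) (AdjoinSimple.gen k (y ^ 2))) = ((σ : AlgebraicClosure k →ₐ[k] AlgebraicClosure k).comp
        (k⟮y ^ 2⟯).val) (AdjoinSimple.gen k (y ^ 2))
    rw [← hz, map_pow, hg, he]

end RFLD

theorem thm_RFLD : St_RFLD := by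
  intro k _ _ y _ g
  unfold sgn
  rw [RFLD.card_eq y g (fun z => z) (fun z => rfl), RFLD.card_eq y g (fun z => -z) (fun z => neg_sq z)]

end ART
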