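import Pool.Agent.ART.RS.St

/-!
# ART/RS: the generic element (helper51)
-/

set_option autoImplicit false

namespace ART

open NumberField IntermediateField

private theorem RGEN_ne {k F M : Type} [Field k] [Field F] [Field M] [CharZero M] [Algebra k F]
    [Algebra k M] (d : F) [Fintype (Pr k F M d)] (hd : d ≠ 0) (f : Pr k F M d → ℤ) (hf : f ≠ 0)
    (hodd : ∀ x y : Pr k F M d, x.1.1 = y.1.1 → x.1.2 = -y.1.2 → f x = -f y) :
    (∑ x : Pr k F M d, ((f x : M) * x.1.2) • x.1.1.toLinearMap : F →ₗ[k] M) ≠ 0 := by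
  classical
  intro h0
  obtain ⟨x₀, hx₀⟩ := Function.ne_iff.1 hf
  have hz : x₀.1.2 ≠ 0 := by
    intro h1
    have h2 := x₀.2
    rw [h1, zero_pow two_ne_zero] at h2
    exact hd ((map_eq_zero x₀.1.1).1 h2.symm)
  set y₀ : Pr k F M d := ⟨(x₀.1.1, -x₀.1.2), by
    have h2 := x₀.2
    rw [← h2]
    exact neg_sq _⟩ with hy₀
  have hne : x₀ ≠ y₀ := by
    intro h1
    have h2 : x₀.1.2 = -x₀.1.2 := congrArg (fun x => x.1.2) h1
    exact hz (self_eq_neg.1 h2)
  have hli := linearIndependent_iff'.1 (linearIndependent_toLinearMap k F M)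
    (Finset.univ.image fun x : Pr k F M d => x.1.1)
    (fun φ => ∑ x : Pr k F M d with x.1.1 = φ, (f x : M) * x.1.2) (by
      rw [← h0, ← Finset.sum_fiberwise_of_maps_to
        (s := (Finset.univ : Finset (Pr k F M d)))
        (t := Finset.univ.image fun x : Pr k F M d => x.1.1) (g := fun x => x.1.1)
        (fun x _ => Finset.mem_image_of_mem _ (Finset.mem_univ x))]
      refine Finset.sum_congr rfl fun φ _ => ?_
      rw [Finset.sum_smul]
      refine Finset.sum_congr rfl fun x hx => ?_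
      rw [(Finset.mem_filter.1 hx).2]) x₀.1.1 (Finset.mem_image_of_mem _ (Finset.mem_univ x₀))
  have hfib : (Finset.univ.filter fun x : Pr k F M d => x.1.1 = x₀.1.1) = {x₀, y₀} := by
    ext x
    simp only [Finset.mem_filter, Finset.mem_univ, true_and, Finset.mem_insert,
      Finset.mem_singleton]
    constructor
    · intro h1
      have h2 : x.1.2 ^ 2 = x₀.1.2 ^ 2 := by rw [x.2, x₀.2, h1]
      rcases sq_eq_sq_iff_eq_or_eq_neg.1 h2 with h3 | h3
      · left
        exact Subtype.ext (Prod.ext h1 h3)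
      · right
        exact Subtype.ext (Prod.ext h1 h3)
    · rintro (rfl | rfl)
      · rfl
      · rfl
  have h1 : f y₀ = -f x₀ := hodd y₀ x₀ rfl rfl
  have h2 : (∑ x : Pr k F M d with x.1.1 = x₀.1.1, (f x : M) * x.1.2) = 2 * ((f x₀ : M) * x₀.1.2) := by
    rw [hfib, Finset.sum_pair hne, h1]
    show (f x₀ : M) * x₀.1.2 + ((-f x₀ : ℤ) : M) * -x₀.1.2 = _
    push_cast
    ring
  have h3 : (2 : M) * ((f x₀ : M) * x₀.1.2) = 0 := h2 ▸ hli
  have h4 : (f x₀ : M) ≠ 0 := Int.cast_ne_zero.2 hx₀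
  exact (mul_ne_zero two_ne_zero (mul_ne_zero h4 hz)) h3

/-- GEN -/
theorem thm_RGEN : St_RGEN := by
  intro k F _ _ _ _ _ d _ hd S hS hf
  have : Finite S := hS
  have hinf : Infinite k := inferInstance
  have hcz : CharZero (AlgebraicClosure k) := charZero_of_injective_algebraMap
    (algebraMap k (AlgebraicClosure k)).injective
  by_contra hcon
  push Not at hcon
  have hcov : ⋃ f : S, ((LinearMap.ker (∑ x : Pr k F (AlgebraicClosure k) d,
      ((f.1 x : AlgebraicClosure k) * x.1.2) • x.1.1.toLinearMap :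
        F →ₗ[k] AlgebraicClosure k) : Subspace k F) : Set F) = Set.univ := by
    rw [Set.eq_univ_iff_forall]
    intro t
    obtain ⟨f, hfS, ht⟩ := hcon t
    refine Set.mem_iUnion.2 ⟨⟨f, hfS⟩, ?_⟩
    rw [SetLike.mem_coe, LinearMap.mem_ker, ← ht, LinearMap.sum_apply]
    refine Finset.sum_congr rfl fun x _ => ?_
    rw [LinearMap.smul_apply, smul_eq_mul, AlgHom.toLinearMap_apply, mul_assoc,
      mul_comm x.1.2 (x.1.1 t)]
  obtain ⟨f, hft⟩ := Subspace.exists_eq_top_of_iUnion_eq_univ hcov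
  exact RGEN_ne d hd f.1 (hf f.1 f.2).1 (hf f.1 f.2).2 (LinearMap.ker_eq_top.1 hft)

end ART
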