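import Pool.Agent.ART.RS.St

/-!
# ART/RS, module ORB: decomposition into orbits
-/

set_option autoImplicit false

namespace ART

open NumberField IntermediateField

theorem thm_RORB (h : St_RFLD) : St_RORB := by
  intro k _ _ W hW h0 hneg hgal
  classical
  have hfW : Finite W := hW.to_subtype
  let s : Setoid W :=
    { r := fun a b => ∃ σ : AlgebraicClosure k ≃ₐ[k] AlgebraicClosure k,
        (b : AlgebraicClosure k) = σ a ∨ (b : AlgebraicClosure k) = -σ a
      iseqv :=
        { refl := fun a => ⟨1, Or.inl rfl⟩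
          symm := by
            rintro a b ⟨σ, h | h⟩
            · exact ⟨σ.symm, Or.inl (by rw [h, AlgEquiv.symm_apply_apply])⟩
            · exact ⟨σ.symm, Or.inr (by rw [h, map_neg, AlgEquiv.symm_apply_apply, neg_neg])⟩
          trans := by
            rintro a b c ⟨σ, h⟩ ⟨τ, h'⟩
            refine ⟨τ * σ, ?_⟩
            rw [AlgEquiv.mul_apply]
            rcases h with h | h <;> rcases h' with h' | h' <;> rw [h', h]
            · exact Or.inl rfl
            · exact Or.inr rfl
            · exact Or.inr (by rw [map_neg])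
            · exact Or.inl (by rw [map_neg, neg_neg]) } }
  have hfQ : Finite (Quotient s) := Quotient.finite s
  obtain ⟨r, ⟨e⟩⟩ := Finite.exists_equiv_fin (Quotient s)
  let y : Fin r → W := fun i => (e.symm i).out
  refine ⟨r, fun i => (y i : AlgebraicClosure k), fun i => (y i).2, fun g => ?_⟩
  have hy0 : ∀ i, (y i : AlgebraicClosure k) ≠ 0 := fun i h' => h0 (h' ▸ (y i).2)
  have key : ∀ P : AlgebraicClosure k → Prop, (Nat.card {z : W // P z} : ℤ) =
      ∑ i, (Nat.card {z : AlgebraicClosure k // (∃ σ : AlgebraicClosure k ≃ₐ[k] AlgebraicClosure k,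
        z = σ (y i : AlgebraicClosure k) ∨ z = -σ (y i : AlgebraicClosure k)) ∧ P z} : ℤ) := by
    intro P
    have e1 : {z : W // P z} ≃ Σ i : Fin r, {z : AlgebraicClosure k //
        (∃ σ : AlgebraicClosure k ≃ₐ[k] AlgebraicClosure k,
        z = σ (y i : AlgebraicClosure k) ∨ z = -σ (y i : AlgebraicClosure k)) ∧ P z} :=
      { toFun := fun z => ⟨e ⟦z.1⟧, ⟨z.1, by
            have h1 : y (e ⟦z.1⟧) ≈ z.1 := by
              simp only [y, Equiv.symm_apply_apply]
              exact Quotient.mk_out _
            exact h1, z.2⟩⟩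
        invFun := fun z => ⟨⟨z.2.1, by
            obtain ⟨i, z, ⟨σ, h1 | h1⟩, hP⟩ := z
            · simp only [h1]; exact hgal _ (y i).2 σ
            · simp only [h1]; exact hneg _ (hgal _ (y i).2 σ)⟩, z.2.2.2⟩
        left_inv := fun z => rfl
        right_inv := by
          rintro ⟨i, z, hz, hP⟩
          have hzW : z ∈ W := by
            obtain ⟨σ, h1 | h1⟩ := hz
            · rw [h1]; exact hgal _ (y i).2 σ
            · rw [h1]; exact hneg _ (hgal _ (y i).2 σ)
          have h2 : e ⟦(⟨z, hzW⟩ : W)⟧ = i := by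
            have h3 : y i ≈ (⟨z, hzW⟩ : W) := hz
            have h4 : (⟦y i⟧ : Quotient s) = ⟦(⟨z, hzW⟩ : W)⟧ := Quotient.sound h3
            rw [← h4]
            simp only [y, Quotient.out_eq, Equiv.apply_symm_apply]
          subst h2
          rfl }
    rw [Nat.card_congr e1]
    have hfin : ∀ i : Fin r, Finite {z : AlgebraicClosure k //
        (∃ σ : AlgebraicClosure k ≃ₐ[k] AlgebraicClosure k,
        z = σ (y i : AlgebraicClosure k) ∨ z = -σ (y i : AlgebraicClosure k)) ∧ P z} := by
      intro i
      refine Finite.of_injective (β := W) (fun z => ⟨z.1, ?_⟩) ?_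
      · obtain ⟨z, ⟨σ, h1 | h1⟩, hP⟩ := z
        · simp only [h1]; exact hgal _ (y i).2 σ
        · simp only [h1]; exact hneg _ (hgal _ (y i).2 σ)
      · intro a b hab
        exact Subtype.ext (congrArg (fun z : W => (z : AlgebraicClosure k)) hab)
    rw [Nat.card_sigma]
    push_cast
    rfl
  rw [key (fun z => g z = z), key (fun z => g z = -z), ← Finset.sum_sub_distrib]
  exact Finset.sum_congr rfl fun i _ => (h k (y i) (hy0 i) g).symm

end ART
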