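import Pool.Agent.ART.RS.St

/-!
# ART/RS, module REAL: the field of the square of an element on which the complex conjugations act by signs
-/

set_option autoImplicit false

namespace ART

open scoped ComplexConjugate
open NumberField IntermediateField

/-- an embedding of the algebraic closure which is real on `k` gives a complex conjugation -/
theorem RREAL_cc (k : Type) [Field k] (j : AlgebraicClosure k →+* ℂ)
    (hj : ∀ a : k, conj (j (algebraMap k (AlgebraicClosure k) a)) =
      j (algebraMap k (AlgebraicClosure k) a)) :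
    ∃ c : AlgebraicClosure k ≃ₐ[k] AlgebraicClosure k, ∀ x, j (c x) = conj (j x) := by
  let _ : Algebra (AlgebraicClosure k) ℂ := j.toAlgebra
  let _ : Algebra k ℂ := (j.comp (algebraMap k (AlgebraicClosure k))).toAlgebra
  have _i : IsScalarTower k (AlgebraicClosure k) ℂ := IsScalarTower.of_algebraMap_eq fun _ => rfl
  let J : AlgebraicClosure k →ₐ[k] ℂ :=
    { toRingHom := (starRingEnd ℂ).comp j, commutes' := fun a => hj a }
  let E := Normal.algHomEquivAut k ℂ (AlgebraicClosure k)
  refine ⟨E J, fun x => ?_⟩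
  have h1 : E.symm (E J) = J := E.symm_apply_apply J
  have h2 : (E.symm (E J)) x = algebraMap (AlgebraicClosure k) ℂ ((E J) x) := rfl
  rw [h1] at h2
  exact h2.symm

/-- [REAL] -/
theorem thm_RREAL : St_RREAL := by
  intro k _ _ y h e he x
  let _ : Algebra k⟮y ^ 2⟯ ℂ := e.toAlgebra
  have _i : Algebra.IsAlgebraic k⟮y ^ 2⟯ (AlgebraicClosure k) :=
    Algebra.IsAlgebraic.tower_top (K := k) k⟮y ^ 2⟯
  let J : AlgebraicClosure k →ₐ[k⟮y ^ 2⟯] ℂ := IsAlgClosed.lift
  have hJ : ∀ z : k⟮y ^ 2⟯, J (z : AlgebraicClosure k) = e z := fun z => J.commutes z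
  obtain ⟨c, hc⟩ := RREAL_cc k J.toRingHom fun a => by
    have h1 := he a
    have h2 := hJ (algebraMap k k⟮y ^ 2⟯ a)
    rw [← h2] at h1
    exact h1
  have hcc : c (y ^ 2) = y ^ 2 := by
    rw [map_pow]
    rcases h c ⟨_, hc⟩ with h1 | h1
    · rw [h1]
    · rw [h1, neg_sq]
  have hfix : ∀ z ∈ k⟮y ^ 2⟯, c z = z := by
    intro z hz
    induction hz using IntermediateField.adjoin_induction with
    | mem z hz =>
      rw [Set.mem_singleton_iff.1 hz]
      exact hcc
    | algebraMap a => exact c.commutes a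
    | add z w _ _ h1 h2 => rw [map_add, h1, h2]
    | inv z _ h1 => rw [map_inv₀, h1]
    | mul z w _ _ h1 h2 => rw [map_mul, h1, h2]
  have h3 := hc (x : AlgebraicClosure k)
  rw [hfix _ x.2] at h3
  rw [← hJ x]
  exact h3.symm

end ART
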