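import Pool.Agent.ART.RS.St

/-!
# ART/RS, modules TRC and STB: the trace identity for finite permutation groups
-/

set_option autoImplicit false

namespace ART

open Finset

theorem RS_card {α : Type} [DecidableEq α] (J : Finset α) (B : Set α) (hBJ : ∀ f, f ∈ B ↔ f ∈ J)
    (P : α → Prop) [DecidablePred P] :
    (Nat.card {f : B // P f.1} : ℤ) = ∑ f ∈ J, if P f then 1 else 0 := by
  rw [Finset.sum_boole]
  have e : {f : B // P f.1} ≃ {f // f ∈ J.filter P} :=
    { toFun := fun f => ⟨f.1.1, mem_filter.2 ⟨(hBJ _).1 f.1.2, f.2⟩⟩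
      invFun := fun f => ⟨⟨f.1, (hBJ _).2 (mem_filter.1 f.2).1⟩, (mem_filter.1 f.2).2⟩
      left_inv := fun f => rfl
      right_inv := fun f => rfl }
  rw [Nat.card_congr e, Nat.card_eq_fintype_card, Fintype.card_coe]

theorem RS_card' {X : Type} [Fintype X] (P : X → Prop) [DecidablePred P] :
    (Nat.card {x : X // P x} : ℤ) = ∑ x, if P x then 1 else 0 := by
  rw [Finset.sum_boole, Nat.card_eq_fintype_card, Fintype.card_subtype]

/-- the trace of a permutation of a frame -/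
theorem RS_frame {X I : Type} [Fintype X] [DecidableEq X] [Fintype I] (ν g : Equiv.Perm X)
    (hν : ∀ x, ν (ν x) = x)
    (v : I → X → ℤ) (C : ℤ) (hC : C ≠ 0) (hodd : ∀ i x, v i (ν x) = -v i x)
    (hcomp : ∀ x y, ∑ i, v i x * v i y = C * ((if x = y then 1 else 0) - (if x = ν y then 1 else 0)))
    (neg : I → I) (hneg : ∀ i, v (neg i) = -v i) (hnn : ∀ i, neg (neg i) = i)
    (horth : ∀ i j, v i = v j ∨ v i = -v j ∨ ∑ x, v i x * v j x = 0)
    (hg : ∀ i, ∃ j, v i ∘ ⇑g = v j) (B : Set (X → ℤ)) (hB : B = {f | f ≠ 0 ∧ ∃ i, f = v i}) :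
    (Nat.card {x : X // g x = x} : ℤ) - Nat.card {x : X // g x = ν x} =
      (Nat.card {f : B // f.1 ∘ ⇑g = f.1} : ℤ) - Nat.card {f : B // f.1 ∘ ⇑g = -f.1} := by
  classical
  set J : Finset (X → ℤ) := (univ.image v).filter (· ≠ 0) with hJ
  have hBJ : ∀ f, f ∈ B ↔ f ∈ J := by
    intro f
    rw [hB, hJ, mem_filter, mem_image]
    constructor
    · rintro ⟨h1, i, rfl⟩; exact ⟨⟨i, mem_univ _, rfl⟩, h1⟩
    · rintro ⟨⟨i, -, rfl⟩, h1⟩; exact ⟨h1, i, rfl⟩
  rw [RS_card J B hBJ (fun f => f ∘ ⇑g = f), RS_card J B hBJ (fun f => f ∘ ⇑g = -f),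
    RS_card' (fun x => g x = x), RS_card' (fun x => g x = ν x), ← Finset.sum_sub_distrib,
    ← Finset.sum_sub_distrib]
  refine mul_left_cancel₀ hC ?_
  rw [Finset.mul_sum, Finset.mul_sum]
  -- the left side
  have h1 : ∑ x, C * ((if g x = x then 1 else 0) - (if g x = ν x then 1 else 0)) =
      ∑ i, ∑ x, v i (g x) * v i x := by
    rw [Finset.sum_comm]
    exact Finset.sum_congr rfl fun x _ => (hcomp (g x) x).symm
  rw [h1]
  have h2 : ∑ i, ∑ x, v i (g x) * v i x =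
      ∑ f ∈ univ.image v, (#{i | v i = f} : ℤ) * ∑ x, f (g x) * f x := by
    have := Finset.sum_comp (s := univ) (fun f : X → ℤ => ∑ x, f (g x) * f x) v
    simpa only [nsmul_eq_mul] using this
  rw [h2]
  -- remove zero
  have h3 : ∑ f ∈ univ.image v, (#{i | v i = f} : ℤ) * ∑ x, f (g x) * f x =
      ∑ f ∈ J, (#{i | v i = f} : ℤ) * ∑ x, f (g x) * f x := by
    rw [hJ, Finset.sum_filter]
    refine Finset.sum_congr rfl fun f _ => ?_
    split_ifs with h
    · rfl
    · simp only [ne_eq, not_not] at h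
      subst h; simp
  rw [h3]
  refine Finset.sum_congr rfl fun f hf => ?_
  obtain ⟨hf1, hf0⟩ := mem_filter.1 hf
  obtain ⟨i, -, rfl⟩ := mem_image.1 hf1
  -- the norm
  have hn : ∑ x, v i x * v i x ≠ 0 := by
    intro h
    apply hf0
    funext x
    have := (Finset.sum_eq_zero_iff_of_nonneg fun y _ => mul_self_nonneg (v i y)).1 h x (mem_univ x)
    simpa using this
  have h4 : ∑ j, (∑ x, v j x * v i x) ^ 2 = 2 * C * ∑ x, v i x * v i x := by
    have e1 : ∀ j, (∑ x, v j x * v i x) ^ 2 = ∑ x, ∑ y, v i x * v i y * (v j x * v j y) := by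
      intro j
      rw [pow_two, Finset.sum_mul_sum]
      refine Finset.sum_congr rfl fun x _ => Finset.sum_congr rfl fun y _ => by ring
    simp only [e1]
    rw [Finset.sum_comm]
    have e2 : ∀ x, ∑ j, ∑ y, v i x * v i y * (v j x * v j y) = 2 * C * (v i x * v i x) := by
      intro x
      rw [Finset.sum_comm]
      have e3 : ∀ y, ∑ j, v i x * v i y * (v j x * v j y) =
          (if x = y then C * (v i x * v i y) else 0) - (if ν x = y then C * (v i x * v i y) else 0) := by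
        intro y
        rw [← Finset.mul_sum, hcomp]
        have : (x = ν y) ↔ (ν x = y) := by
          constructor
          · rintro rfl; rw [hν]
          · rintro rfl; rw [hν]
        simp only [this]
        split_ifs <;> ring
      simp only [e3]
      rw [Finset.sum_sub_distrib, Finset.sum_ite_eq, Finset.sum_ite_eq]
      simp only [mem_univ, if_true, hodd]
      ring
    simp only [e2]
    rw [← Finset.mul_sum]
  have h5 : ∑ j, (∑ x, v j x * v i x) ^ 2 =
      2 * ((#{j | v j = v i} : ℤ) * (∑ x, v i x * v i x) ^ 2) := by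
    have e1 : ∀ j, (∑ x, v j x * v i x) ^ 2 = (if v j = v i then (∑ x, v i x * v i x) ^ 2 else 0) +
        (if v j = -v i then (∑ x, v i x * v i x) ^ 2 else 0) := by
      intro j
      have hne : v i ≠ -v i := by
        intro h
        apply hf0
        funext x
        have := congrFun h x
        simp only [Pi.neg_apply] at this
        simp only [Pi.zero_apply]; omega
      rcases horth j i with h | h | h
      · rw [if_pos h, if_neg (by rw [h]; exact hne), h]; ring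
      · rw [if_pos h, if_neg (by rw [h]; exact fun h' => hne h'.symm), h]
        simp only [Pi.neg_apply, neg_mul, Finset.sum_neg_distrib]; ring
      · have h1 : v j ≠ v i := by
          rintro h'; rw [h'] at h; exact hn h
        have h2 : v j ≠ -v i := by
          rintro h'; rw [h'] at h
          simp only [Pi.neg_apply, neg_mul, Finset.sum_neg_distrib, neg_eq_zero] at h
          exact hn h
        rw [if_neg h1, if_neg h2, h]; ring
    rw [Finset.sum_congr rfl fun j _ => e1 j, Finset.sum_add_distrib]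
    have e2 : ∑ j, (if v j = -v i then (∑ x, v i x * v i x) ^ 2 else 0) =
        ∑ j, (if v j = v i then (∑ x, v i x * v i x) ^ 2 else 0) := by
      refine Finset.sum_nbij' neg neg (fun _ _ => mem_univ _) (fun _ _ => mem_univ _)
        (fun j _ => hnn j) (fun j _ => hnn j) fun j _ => ?_
      rw [hneg]
      have : (v j = -v i) ↔ (-v j = v i) := by rw [neg_eq_iff_eq_neg]
      simp only [this]
    rw [e2, ← Finset.sum_filter, Finset.sum_const, nsmul_eq_mul]
    ring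
  have h6 : (#{j | v j = v i} : ℤ) * (∑ x, v i x * v i x) = C := by
    have := h4.symm.trans h5
    refine mul_right_cancel₀ hn ?_
    linarith
  -- the value at g
  obtain ⟨j, hj⟩ := hg i
  have hj' : ∀ x, v i (g x) = v j x := fun x => congrFun hj x
  simp only [hj', hj]
  have hne : v i ≠ -v i := by
    intro h
    apply hf0
    funext x
    have := congrFun h x
    simp only [Pi.neg_apply] at this
    simp only [Pi.zero_apply]; omega
  rcases horth j i with h | h | h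
  · rw [if_pos h, if_neg (by rw [h]; exact hne), h, h6]; ring
  · rw [if_pos h, if_neg (by rw [h]; exact fun h' => hne h'.symm), h]
    simp only [Pi.neg_apply, neg_mul, Finset.sum_neg_distrib, mul_neg, h6]; ring
  · have h1 : v j ≠ v i := by
      rintro h'; rw [h'] at h; exact hn h
    have h2 : v j ≠ -v i := by
      rintro h'; rw [h'] at h
      simp only [Pi.neg_apply, neg_mul, Finset.sum_neg_distrib, neg_eq_zero] at h
      exact hn h
    rw [if_neg h1, if_neg h2, h]; ring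

/-! ### characters -/

section

variable {X : Type} [Fintype X] [DecidableEq X]

omit [DecidableEq X] in
theorem RS_exists_char (Z : Subgroup (Equiv.Perm X)) (h2 : ∀ z ∈ Z, z * z = 1) (z : Z) (hz : z ≠ 1) :
    ∃ ψ : Z →* ℤˣ, ψ z ≠ 1 := by
  have h2' : ∀ z : Z, z * z = 1 := fun z => Subtype.ext (h2 z z.2)
  have hinv : ∀ z : Z, z⁻¹ = z := fun z => inv_eq_of_mul_eq_one_left (h2' z)
  have hcomm : ∀ a b : Z, a * b = b * a := fun a b => by
    have := hinv (a * b)
    rw [mul_inv_rev, hinv, hinv] at this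
    exact this.symm
  let _ : CommGroup Z := { (inferInstance : Group Z) with mul_comm := hcomm }
  have hroots : HasEnoughRootsOfUnity ℤ 2 :=
    { prim := ⟨-1, IsPrimitiveRoot.neg_one 0 (by norm_num)⟩
      cyc := rootsOfUnity.isCyclic ℤ 2 }
  have hexp : Monoid.exponent Z ∣ 2 := Monoid.exponent_dvd_of_forall_pow_eq_one fun z => by
    rw [pow_two]; exact h2' z
  have := HasEnoughRootsOfUnity.of_dvd ℤ hexp
  exact CommGroup.exists_apply_ne_one_of_hasEnoughRootsOfUnity Z ℤ hz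

theorem RS_sum_char (Z : Subgroup (Equiv.Perm X)) (h2 : ∀ z ∈ Z, z * z = 1)
    [Fintype (Z →* ℤˣ)] (z w : Z) : ∑ ψ : Z →* ℤˣ, ((ψ z : ℤˣ) : ℤ) * ((ψ w : ℤˣ) : ℤ) =
      if z = w then (Fintype.card (Z →* ℤˣ) : ℤ) else 0 := by
  split_ifs with h
  · subst h
    have : ∀ ψ : Z →* ℤˣ, ((ψ z : ℤˣ) : ℤ) * ((ψ z : ℤˣ) : ℤ) = 1 := by
      intro ψ
      rw [← Units.val_mul, Int.units_mul_self, Units.val_one]
    simp [this]
  · have h2' : w * w = 1 := Subtype.ext (h2 w w.2)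
    have hzw : z * w ≠ 1 := by
      intro h'
      apply h
      calc z = z * (w * w) := by rw [h2', mul_one]
        _ = w := by rw [← mul_assoc, h', one_mul]
    obtain ⟨χ, hχ⟩ := RS_exists_char Z h2 (z * w) hzw
    have hχ1 : ((χ (z * w) : ℤˣ) : ℤ) = -1 := by
      rcases Int.units_eq_one_or (χ (z * w)) with h | h
      · exact absurd h hχ
      · rw [h]; rfl
    have e : ∑ ψ : Z →* ℤˣ, ((ψ z : ℤˣ) : ℤ) * ((ψ w : ℤˣ) : ℤ) =
        ∑ ψ : Z →* ℤˣ, (((χ * ψ) z : ℤˣ) : ℤ) * (((χ * ψ) w : ℤˣ) : ℤ) :=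
      (Equiv.sum_comp (Equiv.mulLeft χ) fun ψ : Z →* ℤˣ =>
        ((ψ z : ℤˣ) : ℤ) * ((ψ w : ℤˣ) : ℤ)).symm
    have e2 : ∀ ψ : Z →* ℤˣ, (((χ * ψ) z : ℤˣ) : ℤ) * (((χ * ψ) w : ℤˣ) : ℤ) =
        -(((ψ z : ℤˣ) : ℤ) * ((ψ w : ℤˣ) : ℤ)) := by
      intro ψ
      have h3 : ((χ (z * w) : ℤˣ) : ℤ) = ((χ z : ℤˣ) : ℤ) * ((χ w : ℤˣ) : ℤ) := by
        rw [map_mul, Units.val_mul]
      rw [hχ1] at h3
      simp only [MonoidHom.mul_apply, Units.val_mul]
      linear_combination (-(((ψ z : ℤˣ) : ℤ) * ((ψ w : ℤˣ) : ℤ))) * h3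
    simp only [e2, Finset.sum_neg_distrib] at e
    omega

variable (ν : Equiv.Perm X) (Z : Subgroup (Equiv.Perm X))

/-- the coefficients -/
def RS_a (z : Equiv.Perm X) (x y : X) : ℤ := (if z x = y then 1 else 0) - (if ν (z x) = y then 1 else 0)

theorem RS_vec [Fintype Z] (x : X) (ψ : Z →* ℤˣ) (y : X) :
    vec ν Z x ψ y = ∑ z : Z, ((ψ z : ℤˣ) : ℤ) * RS_a ν z x y := by
  rw [vec, finsum_eq_sum_of_fintype]; rfl

variable {ν Z}

theorem RS_a_nu (hν : ∀ x, ν (ν x) = x) (z : Equiv.Perm X) (x y : X) :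
    RS_a ν z x (ν y) = -RS_a ν z x y := by
  have h1 : (z x = ν y) ↔ (ν (z x) = y) := by
    constructor
    · intro h; rw [h, hν]
    · intro h; rw [← h, hν]
  have h2 : (ν (z x) = ν y) ↔ (z x = y) := ν.injective.eq_iff
  simp only [RS_a, h1, h2]; ring

theorem RS_a_nux (hν : ∀ x, ν (ν x) = x) {z : Equiv.Perm X} (hz : z * ν = ν * z) (x y : X) :
    RS_a ν z (ν x) y = -RS_a ν z x y := by
  have h1 : z (ν x) = ν (z x) := by
    have := congrArg (fun f : Equiv.Perm X => f x) hz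
    simpa using this
  simp only [RS_a, h1, hν]; ring

theorem RS_a_mul {z : Equiv.Perm X} (hz : z * ν = ν * z) (w : Equiv.Perm X) (x y : X) :
    RS_a ν (z * w) x (z y) = RS_a ν w x y := by
  have h1 : ν (z (w x)) = z (ν (w x)) := by
    have := congrArg (fun f : Equiv.Perm X => f (w x)) hz
    simpa using this.symm
  have h2 : (z (ν (w x)) = z y) ↔ (ν (w x) = y) := z.injective.eq_iff
  have h3 : (z (w x) = z y) ↔ (w x = y) := z.injective.eq_iff
  simp only [RS_a, Equiv.Perm.mul_apply, h1, h2, h3]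

theorem RS_nu (hν : ∀ x, ν (ν x) = x) (x : X) (ψ : Z →* ℤˣ) (y : X) :
    vec ν Z x ψ (ν y) = -vec ν Z x ψ y := by
  have : Fintype Z := Fintype.ofFinite Z
  rw [RS_vec, RS_vec, ← Finset.sum_neg_distrib]
  refine Finset.sum_congr rfl fun z _ => ?_
  rw [RS_a_nu hν]; ring

theorem RS_nux (hν : ∀ x, ν (ν x) = x) (hz : ∀ z ∈ Z, z * ν = ν * z) (x : X) (ψ : Z →* ℤˣ) :
    vec ν Z (ν x) ψ = -vec ν Z x ψ := by
  have : Fintype Z := Fintype.ofFinite Z
  funext y
  rw [Pi.neg_apply, RS_vec, RS_vec, ← Finset.sum_neg_distrib]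
  refine Finset.sum_congr rfl fun z _ => ?_
  rw [RS_a_nux hν (hz z z.2)]; ring

theorem RS_smul (hz : ∀ z ∈ Z, z * ν = ν * z) (x : X) (ψ : Z →* ℤˣ) (z₀ : Z) (y : X) :
    vec ν Z x ψ ((z₀ : Equiv.Perm X) y) = ((ψ z₀ : ℤˣ) : ℤ) * vec ν Z x ψ y := by
  have : Fintype Z := Fintype.ofFinite Z
  rw [RS_vec, RS_vec, Finset.mul_sum, ← Equiv.sum_comp (Equiv.mulLeft z₀)]
  refine Finset.sum_congr rfl fun z _ => ?_
  rw [Equiv.coe_mulLeft, map_mul, Units.val_mul, Subgroup.coe_mul, RS_a_mul (hz z₀ z₀.2)]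
  ring

theorem RS_x (h2 : ∀ z ∈ Z, z * z = 1) (x : X) (ψ : Z →* ℤˣ) (z₀ : Z) :
    vec ν Z ((z₀ : Equiv.Perm X) x) ψ = fun y => ((ψ z₀ : ℤˣ) : ℤ) * vec ν Z x ψ y := by
  have : Fintype Z := Fintype.ofFinite Z
  funext y
  have h2' : z₀ * z₀ = 1 := Subtype.ext (h2 z₀ z₀.2)
  rw [RS_vec, RS_vec, Finset.mul_sum, ← Equiv.sum_comp (Equiv.mulRight z₀)]
  refine Finset.sum_congr rfl fun z _ => ?_
  have e1 : RS_a ν ((z * z₀ : Z) : Equiv.Perm X) ((z₀ : Equiv.Perm X) x) y = RS_a ν z x y := by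
    have : ((z * z₀ : Z) : Equiv.Perm X) ((z₀ : Equiv.Perm X) x) = (z : Equiv.Perm X) x := by
      rw [← Equiv.Perm.mul_apply, ← Subgroup.coe_mul, mul_assoc, h2', mul_one]
    simp only [RS_a, this]
  rw [Equiv.coe_mulRight, map_mul, Units.val_mul, e1]
  ring

theorem RS_supp (x : X) (ψ : Z →* ℤˣ) (y : X) (h : vec ν Z x ψ y ≠ 0) :
    ∃ z : Z, (z : Equiv.Perm X) x = y ∨ ν ((z : Equiv.Perm X) x) = y := by
  have : Fintype Z := Fintype.ofFinite Z
  by_contra hc
  push Not at hc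
  apply h
  rw [RS_vec]
  refine Finset.sum_eq_zero fun z _ => ?_
  rw [RS_a, if_neg (hc z).1, if_neg (hc z).2, sub_zero, mul_zero]

theorem RS_orth (hν : ∀ x, ν (ν x) = x) (h2 : ∀ z ∈ Z, z * z = 1)
    (hz : ∀ z ∈ Z, z * ν = ν * z) (x x' : X) (ψ ψ' : Z →* ℤˣ) :
    vec ν Z x ψ = vec ν Z x' ψ' ∨ vec ν Z x ψ = -vec ν Z x' ψ' ∨
      ∑ y, vec ν Z x ψ y * vec ν Z x' ψ' y = 0 := by
  by_cases hψ : ψ = ψ'
  · subst hψ
    by_cases hx : ∃ z : Z, (z : Equiv.Perm X) x = x' ∨ ν ((z : Equiv.Perm X) x) = x'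
    · obtain ⟨z, hx⟩ := hx
      have e1 := RS_x (ν := ν) h2 x ψ z
      have e2 : vec ν Z x' ψ = vec ν Z ((z : Equiv.Perm X) x) ψ ∨
          vec ν Z x' ψ = -vec ν Z ((z : Equiv.Perm X) x) ψ := by
        rcases hx with rfl | rfl
        · exact Or.inl rfl
        · exact Or.inr (RS_nux hν hz _ ψ)
      rw [e1] at e2
      rcases Int.units_eq_one_or (ψ z) with h | h
      · rw [h] at e2
        simp only [Units.val_one, one_mul] at e2
        rcases e2 with e2 | e2
        · exact Or.inl e2.symm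
        · right; left; rw [e2]; funext y; simp
      · rw [h] at e2
        simp only [Units.val_neg, Units.val_one, neg_mul, one_mul] at e2
        rcases e2 with e2 | e2
        · right; left; rw [e2]; funext y; simp
        · left; rw [e2]; funext y; simp
    · right; right
      refine Finset.sum_eq_zero fun y _ => ?_
      by_contra hne
      obtain ⟨z, h3⟩ := RS_supp x ψ y (left_ne_zero_of_mul hne)
      obtain ⟨w, h4⟩ := RS_supp x' ψ y (right_ne_zero_of_mul hne)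
      apply hx
      have hw : ∀ t, (w : Equiv.Perm X) ((w : Equiv.Perm X) t) = t := fun t => by
        rw [← Equiv.Perm.mul_apply, h2 w w.2]; rfl
      have hwν : ∀ t, (w : Equiv.Perm X) (ν t) = ν ((w : Equiv.Perm X) t) := fun t => by
        have := congrArg (fun f : Equiv.Perm X => f t) (hz w w.2)
        simpa using this
      refine ⟨w * z, ?_⟩
      rw [Subgroup.coe_mul, Equiv.Perm.mul_apply]
      rcases h3 with h3 | h3 <;> rcases h4 with h4 | h4
      · left; rw [h3, ← h4, hw]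
      · right; rw [h3, ← h4, hwν, hw, hν]
      · right
        rw [← hwν, h3, ← h4, hw]
      · left
        have : (z : Equiv.Perm X) x = (w : Equiv.Perm X) x' := ν.injective (h3.trans h4.symm)
        rw [this, hw]
  · right; right
    obtain ⟨z, hzz⟩ : ∃ z, ψ z ≠ ψ' z := by
      by_contra h
      push Not at h
      exact hψ (MonoidHom.ext h)
    have e1 : ((ψ z : ℤˣ) : ℤ) * ((ψ' z : ℤˣ) : ℤ) = -1 := by
      rcases Int.units_eq_one_or (ψ z) with h | h <;> rcases Int.units_eq_one_or (ψ' z) with h' | h' <;>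
        simp_all
    have e2 : ∑ y, vec ν Z x ψ y * vec ν Z x' ψ' y =
        ∑ y, vec ν Z x ψ ((z : Equiv.Perm X) y) * vec ν Z x' ψ' ((z : Equiv.Perm X) y) :=
      (Equiv.sum_comp (z : Equiv.Perm X) fun y => vec ν Z x ψ y * vec ν Z x' ψ' y).symm
    have e3 : ∀ y, vec ν Z x ψ ((z : Equiv.Perm X) y) * vec ν Z x' ψ' ((z : Equiv.Perm X) y) =
        -(vec ν Z x ψ y * vec ν Z x' ψ' y) := by
      intro y
      rw [RS_smul hz, RS_smul hz]
      linear_combination (vec ν Z x ψ y * vec ν Z x' ψ' y) * e1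
    simp only [e3, Finset.sum_neg_distrib] at e2
    omega

theorem RS_comp (hν : ∀ x, ν (ν x) = x) (h2 : ∀ z ∈ Z, z * z = 1) [Fintype Z]
    [Fintype (Z →* ℤˣ)] (x y : X) :
    ∑ i : X × (Z →* ℤˣ), vec ν Z i.1 i.2 x * vec ν Z i.1 i.2 y =
      (2 * Fintype.card (Z →* ℤˣ) * Fintype.card Z : ℤ) *
        ((if x = y then 1 else 0) - (if x = ν y then 1 else 0)) := by
  have e1 : ∀ x₀ : X, ∑ ψ : Z →* ℤˣ, vec ν Z x₀ ψ x * vec ν Z x₀ ψ y =
      ∑ z : Z, (Fintype.card (Z →* ℤˣ) : ℤ) * (RS_a ν z x₀ x * RS_a ν z x₀ y) := by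
    intro x₀
    have e2 : ∀ ψ : Z →* ℤˣ, vec ν Z x₀ ψ x * vec ν Z x₀ ψ y =
        ∑ z : Z, ∑ w : Z, RS_a ν z x₀ x * RS_a ν w x₀ y *
          (((ψ z : ℤˣ) : ℤ) * ((ψ w : ℤˣ) : ℤ)) := by
      intro ψ
      rw [RS_vec, RS_vec, Finset.sum_mul_sum]
      refine Finset.sum_congr rfl fun z _ => Finset.sum_congr rfl fun w _ => by ring
    simp only [e2]
    rw [Finset.sum_comm]
    refine Finset.sum_congr rfl fun z _ => ?_
    rw [Finset.sum_comm]
    have e3 : ∀ w : Z, ∑ ψ : Z →* ℤˣ, RS_a ν z x₀ x * RS_a ν w x₀ y *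
        (((ψ z : ℤˣ) : ℤ) * ((ψ w : ℤˣ) : ℤ)) =
        if z = w then (Fintype.card (Z →* ℤˣ) : ℤ) * (RS_a ν z x₀ x * RS_a ν z x₀ y) else 0 := by
      intro w
      rw [← Finset.mul_sum, RS_sum_char Z h2]
      split_ifs with h
      · subst h; ring
      · ring
    simp only [e3]
    rw [Finset.sum_ite_eq, if_pos (mem_univ _)]
  rw [Fintype.sum_prod_type]
  simp only [e1]
  rw [Finset.sum_comm]
  have e4 : ∀ z : Z, ∑ x₀ : X, (Fintype.card (Z →* ℤˣ) : ℤ) * (RS_a ν z x₀ x * RS_a ν z x₀ y) =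
      (2 * Fintype.card (Z →* ℤˣ) : ℤ) * ((if x = y then 1 else 0) - (if x = ν y then 1 else 0)) := by
    intro z
    rw [← Finset.mul_sum, mul_comm (2 : ℤ), mul_assoc]
    congr 1
    have e5 : ∑ x₀ : X, RS_a ν z x₀ x * RS_a ν z x₀ y = ∑ x₁ : X, RS_a ν 1 x₁ x * RS_a ν 1 x₁ y :=
      Equiv.sum_comp (z : Equiv.Perm X) fun x₁ => RS_a ν 1 x₁ x * RS_a ν 1 x₁ y
    rw [e5]
    have e6 : ∀ x₁ : X, RS_a ν 1 x₁ x * RS_a ν 1 x₁ y = (if x₁ = x then RS_a ν 1 x₁ y else 0) -
        (if x₁ = ν x then RS_a ν 1 x₁ y else 0) := by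
      intro x₁
      have : (ν x₁ = x) ↔ (x₁ = ν x) := by
        constructor
        · rintro rfl; rw [hν]
        · rintro rfl; rw [hν]
      have e9 : RS_a ν 1 x₁ x = (if x₁ = x then 1 else 0) - (if x₁ = ν x then 1 else 0) := by
        rw [RS_a, Equiv.Perm.one_apply]
        congr 1
        exact if_congr this rfl rfl
      rw [e9, sub_mul, ite_mul, ite_mul, one_mul, zero_mul]
    simp only [e6]
    rw [Finset.sum_sub_distrib, Finset.sum_ite_eq', Finset.sum_ite_eq', if_pos (mem_univ _),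
      if_pos (mem_univ _)]
    have e7 : (ν x = y) ↔ (x = ν y) := by
      constructor
      · rintro rfl; rw [hν]
      · rintro rfl; rw [hν]
    have e8 : (ν (ν x) = y) ↔ (x = y) := by rw [hν]
    have k1 : (if ν x = y then (1 : ℤ) else 0) = if x = ν y then 1 else 0 := if_congr e7 rfl rfl
    have k2 : (if ν (ν x) = y then (1 : ℤ) else 0) = if x = y then 1 else 0 := if_congr e8 rfl rfl
    have k3 : RS_a ν 1 x y = (if x = y then 1 else 0) - (if ν x = y then 1 else 0) := rfl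
    have k4 : RS_a ν 1 (ν x) y = (if ν x = y then 1 else 0) - (if ν (ν x) = y then 1 else 0) := rfl
    rw [k3, k4, k1, k2]
    ring
  simp only [e4]
  rw [Finset.sum_const, Finset.card_univ, nsmul_eq_mul]
  ring

theorem RS_conj {g : Equiv.Perm X} (hgν : g * ν = ν * g)
    (hg : ∀ z ∈ Z, g * z * g⁻¹ ∈ Z) (x : X) (ψ : Z →* ℤˣ) :
    ∃ ψ' : Z →* ℤˣ, vec ν Z x ψ ∘ ⇑g⁻¹ = vec ν Z (g x) ψ' := by
  have : Fintype Z := Fintype.ofFinite Z
  let c : Z →* Z :=
    { toFun := fun z => ⟨g * z * g⁻¹, hg z z.2⟩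
      map_one' := by ext; simp
      map_mul' := fun a b => by apply Subtype.ext; simp [mul_assoc] }
  have hinj : Function.Injective c := by
    intro a b hab
    have := congrArg Subtype.val hab
    simp only [c, MonoidHom.coe_mk, OneHom.coe_mk, mul_left_inj, mul_right_inj] at this
    exact Subtype.ext this
  let e : Z ≃* Z := MulEquiv.ofBijective c ⟨hinj, Finite.injective_iff_surjective.1 hinj⟩
  refine ⟨ψ.comp e.symm.toMonoidHom, ?_⟩
  funext y
  have hgi : g (g⁻¹ y) = y := by rw [← Equiv.Perm.mul_apply, mul_inv_cancel, Equiv.Perm.one_apply]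
  have hig : ∀ t, g⁻¹ (g t) = t := fun t => by
    rw [← Equiv.Perm.mul_apply, inv_mul_cancel, Equiv.Perm.one_apply]
  rw [Function.comp_apply, RS_vec, RS_vec]
  refine Eq.trans ?_ (Equiv.sum_comp e.toEquiv fun z : Z =>
    (((ψ.comp e.symm.toMonoidHom) z : ℤˣ) : ℤ) * RS_a ν z (g x) y)
  refine Finset.sum_congr rfl fun z _ => ?_
  have h1 : (ψ.comp e.symm.toMonoidHom) (e.toEquiv z) = ψ z := by
    simp
  have h2 : ((e.toEquiv z : Z) : Equiv.Perm X) = g * z * g⁻¹ := rfl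
  have h3 : RS_a ν (g * z * g⁻¹) (g x) y = RS_a ν z x (g⁻¹ y) := by
    have h4 := RS_a_mul hgν (z : Equiv.Perm X) x (g⁻¹ y)
    rw [hgi] at h4
    rw [← h4]
    have h5 : (g * (z : Equiv.Perm X) * g⁻¹) (g x) = (g * (z : Equiv.Perm X)) x := by
      rw [Equiv.Perm.mul_apply, hig]
    rw [RS_a, h5, RS_a]
  rw [h1, h2, h3]

end

theorem thm_RTRC : St_RTRC := by
  intro X _ _ ν Z hν hνx h2 hz g hgν hg
  classical
  have : Fintype Z := Fintype.ofFinite Z
  have : Fintype (Z →* ℤˣ) := Fintype.ofFinite _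
  have hconj : ∀ z ∈ Z, g⁻¹ * z * g ∈ Z := by
    let c : Z → Z := fun z => ⟨g * z * g⁻¹, hg z z.2⟩
    have hinj : Function.Injective c := by
      intro a b hab
      have := congrArg Subtype.val hab
      simp only [c, mul_left_inj, mul_right_inj] at this
      exact Subtype.ext this
    intro z hzZ
    obtain ⟨w, hw⟩ := Finite.injective_iff_surjective.1 hinj ⟨z, hzZ⟩
    have h3 : g * w * g⁻¹ = z := congrArg Subtype.val hw
    have h4 : g⁻¹ * z * g = w := by rw [← h3]; group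
    rw [h4]; exact w.2
  have hgν' : g⁻¹ * ν = ν * g⁻¹ := (Commute.inv_left hgν).eq
  refine RS_frame (I := X × (Z →* ℤˣ)) ν g hν (fun i => vec ν Z i.1 i.2)
    (2 * Fintype.card (Z →* ℤˣ) * Fintype.card Z) ?_ (fun i x => RS_nu hν _ _ _)
    (fun x y => RS_comp hν h2 x y) (fun i => (ν i.1, i.2)) (fun i => RS_nux hν hz _ _)
    (fun i => by simp [hν]) (fun i j => RS_orth hν h2 hz _ _ _ _) ?_ (BSet ν Z) ?_
  · have h1 : (Fintype.card (Z →* ℤˣ) : ℤ) ≠ 0 := by exact_mod_cast Fintype.card_ne_zero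
    have h2 : (Fintype.card Z : ℤ) ≠ 0 := by exact_mod_cast Fintype.card_ne_zero
    exact mul_ne_zero (mul_ne_zero two_ne_zero h1) h2
  · intro i
    obtain ⟨ψ', h⟩ := RS_conj hgν' (by simpa using hconj) i.1 i.2
    rw [inv_inv] at h
    exact ⟨(g⁻¹ i.1, ψ'), h⟩
  · ext f
    constructor
    · rintro ⟨h0, x, ψ, rfl⟩; exact ⟨h0, (x, ψ), rfl⟩
    · rintro ⟨h0, ⟨x, ψ⟩, rfl⟩; exact ⟨h0, x, ψ, rfl⟩

theorem thm_RSTB : St_RSTB := by
  intro X _ _ ν Z hν h2 hz
  classical
  have : Fintype Z := Fintype.ofFinite Z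
  have : Fintype (Z →* ℤˣ) := Fintype.ofFinite _
  refine ⟨?_, ?_⟩
  · refine (Set.finite_range fun i : X × (Z →* ℤˣ) => vec ν Z i.1 i.2).subset ?_
    rintro f ⟨h0, x, ψ, rfl⟩
    exact ⟨(x, ψ), rfl⟩
  · rintro f ⟨h0, x, ψ, rfl⟩
    refine ⟨⟨neg_ne_zero.2 h0, ν x, ψ, (RS_nux hν hz x ψ).symm⟩, RS_nu hν x ψ, ?_, ?_⟩
    · intro z hzZ
      have h3 := RS_smul (ν := ν) hz x ψ ⟨z, hzZ⟩
      rcases Int.units_eq_one_or (ψ ⟨z, hzZ⟩) with h | h
      · left; funext y; rw [Function.comp_apply, h3, h]; simp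
      · right; funext y; rw [Function.comp_apply, h3, h]; simp
    · intro g hgν hg
      obtain ⟨ψ', h⟩ := RS_conj hgν hg x ψ
      refine ⟨?_, g x, ψ', h⟩
      intro h3
      apply h0
      funext y
      have := congrFun h3 (g y)
      simpa using this

end ART
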