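import Pool.Agent.ART.StE
import Pool.Agent.ART.RS.TRC
import Pool.Agent.ART.RS.CCF
import Pool.Agent.ART.RS.ORB
import Pool.Agent.ART.RS.FLD
import Pool.Agent.ART.RS.GEN
import Pool.Agent.ART.RS.REAL

/-!
# ART/RS, module REL: the relation
-/

set_option autoImplicit false

namespace ART

open scoped ComplexConjugate
open NumberField IntermediateField

section

variable {k F : Type} [Field k] [NumberField k] [Field F] [NumberField F] [Algebra k F] {d : F}

set_option linter.unusedSectionVars false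

/-- the action on the pairs -/
noncomputable def RS_pi (d : F) : (AlgebraicClosure k ≃ₐ[k] AlgebraicClosure k) →*
    Equiv.Perm (Pr k F (AlgebraicClosure k) d) where
  toFun g :=
    { toFun := fun x => ⟨((g : AlgebraicClosure k →ₐ[k] AlgebraicClosure k).comp x.1.1, g x.1.2), by
        have h := x.2
        simp only [AlgHom.comp_apply]
        rw [← h, map_pow]
        rfl⟩
      invFun := fun x => ⟨((g.symm : AlgebraicClosure k →ₐ[k] AlgebraicClosure k).comp x.1.1,
        g.symm x.1.2), by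
        have h := x.2
        simp only [AlgHom.comp_apply]
        rw [← h, map_pow]
        rfl⟩
      left_inv := fun x => by
        apply Subtype.ext
        apply Prod.ext
        · ext; simp
        · simp
      right_inv := fun x => by
        apply Subtype.ext
        apply Prod.ext
        · ext; simp
        · simp }
  map_one' := by ext x <;> rfl
  map_mul' a b := by ext x <;> rfl

/-- the involution -/
noncomputable def RS_nuP (d : F) : Equiv.Perm (Pr k F (AlgebraicClosure k) d) where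
  toFun x := ⟨(x.1.1, -x.1.2), by rw [neg_sq]; exact x.2⟩
  invFun x := ⟨(x.1.1, -x.1.2), by rw [neg_sq]; exact x.2⟩
  left_inv x := by apply Subtype.ext; apply Prod.ext; · rfl
                   · simp
  right_inv x := by apply Subtype.ext; apply Prod.ext; · rfl
                    · simp

theorem RS_pi_fst (g : AlgebraicClosure k ≃ₐ[k] AlgebraicClosure k)
    (x : Pr k F (AlgebraicClosure k) d) (t : F) : (RS_pi d g x).1.1 t = g (x.1.1 t) := rfl

theorem RS_pi_snd (g : AlgebraicClosure k ≃ₐ[k] AlgebraicClosure k)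
    (x : Pr k F (AlgebraicClosure k) d) : (RS_pi d g x).1.2 = g x.1.2 := rfl

theorem RS_pi_nu (g : AlgebraicClosure k ≃ₐ[k] AlgebraicClosure k) :
    RS_pi d g * RS_nuP d = RS_nuP d * RS_pi d g := by
  ext x
  · rfl
  · change g (-x.1.2) = -g x.1.2
    exact map_neg g _

/-- the permutations given by the complex conjugations -/
def RS_S (k : Type) {F : Type} [Field k] [NumberField k] [Field F] [NumberField F] [Algebra k F]
    (d : F) : Set (Equiv.Perm (Pr k F (AlgebraicClosure k) d)) :=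
  {p | ∃ c, IsCC k c ∧ p = RS_pi d c}

theorem RS_S_comm (hc : CommutingCC k F d) : ∀ x ∈ RS_S k d, ∀ y ∈ RS_S k d, x * y = y * x := by
  rintro _ ⟨c, hc1, rfl⟩ _ ⟨c', hc2, rfl⟩
  ext x
  · exact (hc c c' hc1 hc2 x).1 _
  · exact (hc c c' hc1 hc2 x).2

theorem RS_S_sq : ∀ x ∈ RS_S k d, x * x = 1 := by
  rintro _ ⟨c, hc1, rfl⟩
  have h := (thm_RCCF k c hc1).1
  ext x
  · exact h _
  · exact h _

/-- the group -/
def RS_Z (k : Type) {F : Type} [Field k] [NumberField k] [Field F] [NumberField F] [Algebra k F]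
    (d : F) : Subgroup (Equiv.Perm (Pr k F (AlgebraicClosure k) d)) := Subgroup.closure (RS_S k d)

theorem RS_Z_comm (hc : CommutingCC k F d) {x y : Equiv.Perm (Pr k F (AlgebraicClosure k) d)}
    (hx : x ∈ RS_Z k d) (hy : y ∈ RS_Z k d) : x * y = y * x := by
  have h := Subgroup.isMulCommutative_closure (RS_S_comm hc)
  have := h.is_comm.comm (⟨x, hx⟩ : Subgroup.closure (RS_S k d)) ⟨y, hy⟩
  exact congrArg Subtype.val this

theorem RS_Z_sq (hc : CommutingCC k F d) : ∀ z ∈ RS_Z k d, z * z = 1 := by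
  intro z hz
  induction hz using Subgroup.closure_induction with
  | mem x hx => exact RS_S_sq x hx
  | one => rw [one_mul]
  | mul x y hx hy h1 h2 =>
    have h3 := RS_Z_comm hc hx hy
    calc x * y * (x * y) = x * (y * x) * y := by group
      _ = x * (x * y) * y := by rw [← h3]
      _ = (x * x) * (y * y) := by group
      _ = 1 := by rw [h1, h2, one_mul]
  | inv x hx h1 => rw [← mul_inv_rev, h1, inv_one]

theorem RS_Z_nu : ∀ z ∈ RS_Z k d, z * RS_nuP d = RS_nuP d * z := by
  intro z hz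
  induction hz using Subgroup.closure_induction with
  | mem x hx => obtain ⟨c, _, rfl⟩ := hx; exact RS_pi_nu c
  | one => rw [one_mul, mul_one]
  | mul x y hx hy h1 h2 => rw [mul_assoc, h2, ← mul_assoc, h1, mul_assoc]
  | inv x hx h1 => exact (Commute.inv_left h1).eq

theorem RS_Z_conj (g : AlgebraicClosure k ≃ₐ[k] AlgebraicClosure k) :
    ∀ z ∈ RS_Z k d, RS_pi d g * z * (RS_pi d g)⁻¹ ∈ RS_Z k d := by
  intro z hz
  induction hz using Subgroup.closure_induction with
  | mem x hx =>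
    obtain ⟨c, hc, rfl⟩ := hx
    refine Subgroup.subset_closure ⟨g * c * g⁻¹, (thm_RCCF k c hc).2.1 g, ?_⟩
    simp only [map_mul, map_inv]
  | one => rw [mul_one, mul_inv_cancel]; exact Subgroup.one_mem _
  | mul x y hx hy h1 h2 =>
    have := Subgroup.mul_mem _ h1 h2
    have e : RS_pi d g * x * (RS_pi d g)⁻¹ * (RS_pi d g * y * (RS_pi d g)⁻¹) =
      RS_pi d g * (x * y) * (RS_pi d g)⁻¹ := by group
    rwa [e] at this
  | inv x hx h1 =>
    have := Subgroup.inv_mem _ h1
    have e : (RS_pi d g * x * (RS_pi d g)⁻¹)⁻¹ = RS_pi d g * x⁻¹ * (RS_pi d g)⁻¹ := by group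
    rwa [e] at this

/-- the value of a function on the pairs -/
noncomputable def RS_ev (t : F) (f : Pr k F (AlgebraicClosure k) d → ℤ) : AlgebraicClosure k :=
  ∑ x, (f x : AlgebraicClosure k) * (x.1.1 t * x.1.2)

theorem RS_ev_neg (t : F) (f : Pr k F (AlgebraicClosure k) d → ℤ) :
    RS_ev t (-f) = -RS_ev t f := by
  simp only [RS_ev, Pi.neg_apply, Int.cast_neg, neg_mul, Finset.sum_neg_distrib]

theorem RS_ev_sub (t : F) (f f' : Pr k F (AlgebraicClosure k) d → ℤ) :
    RS_ev t (f - f') = RS_ev t f - RS_ev t f' := by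
  simp only [RS_ev, Pi.sub_apply, Int.cast_sub, sub_mul, Finset.sum_sub_distrib]

theorem RS_ev_gal (t : F) (f : Pr k F (AlgebraicClosure k) d → ℤ)
    (g : AlgebraicClosure k ≃ₐ[k] AlgebraicClosure k) :
    g (RS_ev t f) = RS_ev t (f ∘ ⇑(RS_pi d g)⁻¹) := by
  rw [RS_ev, RS_ev, map_sum]
  refine Eq.trans ?_ (Equiv.sum_comp (RS_pi d g) fun x =>
    (((f ∘ ⇑(RS_pi d g)⁻¹) x : ℤ) : AlgebraicClosure k) * (x.1.1 t * x.1.2))
  refine Finset.sum_congr rfl fun x _ => ?_
  rw [Function.comp_apply, ← Equiv.Perm.mul_apply, inv_mul_cancel, Equiv.Perm.one_apply,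
    RS_pi_fst, RS_pi_snd, map_mul, map_mul, map_intCast]

end

/-- [REL] the relation -/
theorem thm_RREL : St_RREL := by
  intro k _ _ F _ _ _ d hd hc
  classical
  have hνν : ∀ x : Pr k F (AlgebraicClosure k) d, RS_nuP d (RS_nuP d x) = x := fun x => by
    ext
    · rfl
    · exact neg_neg _
  have hνx : ∀ x : Pr k F (AlgebraicClosure k) d, RS_nuP d x ≠ x := fun x h => by
    have h1 : -x.1.2 = x.1.2 := congrArg (fun x => x.1.2) h
    have h2 : x.1.2 = 0 := self_eq_neg.1 h1.symm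
    have h3 := x.2
    rw [h2, zero_pow two_ne_zero] at h3
    exact hd ((map_eq_zero x.1.1).1 h3.symm)
  obtain ⟨hBfin, hB⟩ := thm_RSTB _ (RS_nuP d) (RS_Z k d) hνν (RS_Z_sq hc) RS_Z_nu
  -- the generic element
  obtain ⟨t, ht⟩ := thm_RGEN k F d hd
    (BSet (RS_nuP d) (RS_Z k d) ∪ ((fun p : (Pr k F (AlgebraicClosure k) d → ℤ) × _ => p.1 - p.2) ''
      {p | p.1 ∈ BSet (RS_nuP d) (RS_Z k d) ∧ p.2 ∈ BSet (RS_nuP d) (RS_Z k d) ∧ p.1 ≠ p.2}))
    (hBfin.union (Set.Finite.image _ ((hBfin.prod hBfin).subset fun p hp => ⟨hp.1, hp.2.1⟩))) (by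
      have hodd : ∀ f ∈ BSet (RS_nuP d) (RS_Z k d), ∀ x y : Pr k F (AlgebraicClosure k) d,
          x.1.1 = y.1.1 → x.1.2 = -y.1.2 → f x = -f y := by
        intro f hf x y h1 h2
        have h3 : x = RS_nuP d y := Subtype.ext (Prod.ext h1 h2)
        rw [h3]; exact (hB f hf).2.1 y
      rintro f (hf | ⟨⟨f₁, f₂⟩, ⟨h1, h2, h3⟩, rfl⟩)
      · exact ⟨hf.1, hodd f hf⟩
      · refine ⟨sub_ne_zero.2 h3, fun x y h4 h5 => ?_⟩
        have e1 := hodd f₁ h1 x y h4 h5
        have e2 := hodd f₂ h2 x y h4 h5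
        simp only [Pi.sub_apply]
        omega)
  have hev0 : ∀ f ∈ BSet (RS_nuP d) (RS_Z k d), RS_ev t f ≠ 0 := fun f hf => ht f (Or.inl hf)
  have hinj : ∀ f ∈ BSet (RS_nuP d) (RS_Z k d), ∀ f' ∈ BSet (RS_nuP d) (RS_Z k d),
      RS_ev t f = RS_ev t f' → f = f' := by
    intro f hf f' hf' h
    by_contra hne
    refine ht (f - f') (Or.inr ⟨(f, f'), ⟨hf, hf', hne⟩, rfl⟩) ?_
    change RS_ev t (f - f') = 0
    rw [RS_ev_sub, h, sub_self]
  set W : Set (AlgebraicClosure k) := RS_ev t '' BSet (RS_nuP d) (RS_Z k d) with hW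
  have hgalB : ∀ f ∈ BSet (RS_nuP d) (RS_Z k d), ∀ g : AlgebraicClosure k ≃ₐ[k] AlgebraicClosure k,
      f ∘ ⇑(RS_pi d g)⁻¹ ∈ BSet (RS_nuP d) (RS_Z k d) := fun f hf g =>
    (hB f hf).2.2.2 (RS_pi d g) (RS_pi_nu g) (RS_Z_conj g)
  obtain ⟨r, y, hy, hyg⟩ := thm_RORB thm_RFLD k W (hBfin.image _) (by
      rintro ⟨f, hf, h⟩; exact hev0 f hf h) (by
      rintro _ ⟨f, hf, rfl⟩
      exact ⟨-f, (hB f hf).1, RS_ev_neg t f⟩) (by
      rintro _ ⟨f, hf, rfl⟩ σ
      exact ⟨_, hgalB f hf σ, (RS_ev_gal t f σ).symm⟩)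
  refine ⟨r, y, fun i => ?_, fun i => ?_, fun g => ?_⟩
  · obtain ⟨f, hf, h⟩ := hy i
    rw [← h]; exact hev0 f hf
  · obtain ⟨f, hf, h⟩ := hy i
    refine thm_RREAL k (y i) fun c hcc => ?_
    rw [← h, RS_ev_gal]
    have h1 : (RS_pi d c)⁻¹ ∈ RS_Z k d :=
      Subgroup.inv_mem _ (Subgroup.subset_closure ⟨c, hcc, rfl⟩)
    rcases (hB f hf).2.2.1 _ h1 with h2 | h2
    · left; rw [h2]
    · right; rw [h2, RS_ev_neg]
  · rw [← hyg g]
    have h1 := thm_RTRC _ (RS_nuP d) (RS_Z k d) hνν hνx (RS_Z_sq hc) RS_Z_nu (RS_pi d g)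
      (RS_pi_nu g) (RS_Z_conj g)
    have e1 : sgn d g = (Nat.card {x : Pr k F (AlgebraicClosure k) d // RS_pi d g x = x} : ℤ) -
        Nat.card {x : Pr k F (AlgebraicClosure k) d // RS_pi d g x = RS_nuP d x} := by
      rw [sgn]
      congr 2
      · refine Nat.card_congr (Equiv.subtypeEquivRight fun x => ?_)
        rw [Subtype.ext_iff, Prod.ext_iff]; rfl
      · refine Nat.card_congr (Equiv.subtypeEquivRight fun x => ?_)
        rw [Subtype.ext_iff, Prod.ext_iff]; rfl
    rw [e1, h1]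
    have hcomp : ∀ f f' : Pr k F (AlgebraicClosure k) d → ℤ,
        f ∘ ⇑(RS_pi d g) = f' ↔ f = f' ∘ ⇑(RS_pi d g)⁻¹ := by
      intro f f'
      constructor
      · rintro rfl
        funext x
        rw [Function.comp_apply, Function.comp_apply, ← Equiv.Perm.mul_apply, mul_inv_cancel,
          Equiv.Perm.one_apply]
      · rintro rfl
        funext x
        rw [Function.comp_apply, Function.comp_apply, ← Equiv.Perm.mul_apply, inv_mul_cancel,
          Equiv.Perm.one_apply]
    let E : BSet (RS_nuP d) (RS_Z k d) ≃ W :=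
      Equiv.ofBijective (fun f => ⟨RS_ev t f.1, f.1, f.2, rfl⟩) ⟨by
        intro f f' h
        exact Subtype.ext (hinj f.1 f.2 f'.1 f'.2 (congrArg Subtype.val h)), by
        rintro ⟨_, f, hf, rfl⟩
        exact ⟨⟨f, hf⟩, rfl⟩⟩
    have hE : ∀ f, ((E f : W) : AlgebraicClosure k) = RS_ev t f.1 := fun f => rfl
    congr 2
    · refine Nat.card_congr (E.subtypeEquiv fun f => ?_)
      rw [hE, RS_ev_gal, hcomp]
      constructor
      · intro h; rw [← h]
      · intro h; exact (hinj _ (hgalB f.1 f.2 g) _ f.2 h).symm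
    · refine Nat.card_congr (E.subtypeEquiv fun f => ?_)
      rw [hE, RS_ev_gal, hcomp, ← RS_ev_neg]
      constructor
      · intro h
        have h3 : f.1 ∘ ⇑(RS_pi d g)⁻¹ = -f.1 := by
          funext x
          have h4 := congrFun h x
          simp only [Function.comp_apply, Pi.neg_apply] at h4 ⊢
          omega
        rw [h3]
      · intro h
        have h3 := hinj _ (hgalB f.1 f.2 g) _ (hB f.1 f.2).1 h
        funext x
        have h4 := congrFun h3 x
        simp only [Function.comp_apply, Pi.neg_apply] at h4 ⊢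
        omega

end ART
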