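import Pool.Agent.ART.All
import Pool.Agent.ART.RS.REL
import Pool.Agent.ART.RS.CNV

/-!
# ART/RS: the theorem
-/

set_option autoImplicit false

namespace ART

open NumberField IntermediateField

/-- the product formula for one field and several others -/
theorem RS_formula (hG : General) {k F : Type} [Field k] [NumberField k] [f₁ : Field F]
    [n₁ : NumberField F] [a₁ : Algebra k F]
    {d : F} {r : ℕ} {K : Fin r → Type} [f₂ : ∀ i, Field (K i)] [n₂ : ∀ i, NumberField (K i)]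
    [a₂ : ∀ i, Algebra k (K i)] {δ : ∀ i, K i} (hd : d ≠ 0) (hδ : ∀ i, δ i ≠ 0)
    (hrel : ∀ g : AlgebraicClosure k ≃ₐ[k] AlgebraicClosure k, sgn d g = ∑ i, sgn (δ i) g)
    {E : WeierstrassCurve k} {A : WeierstrassCurve F} {B : ∀ i, WeierstrassCurve (K i)} {c : ℂ}
    {b : Fin r → ℂ} {x : ℝ} {y : Fin r → ℝ} (hE : E.Δ ≠ 0) (hA : IsTwist E d A)
    (hB : ∀ i, IsTwist E (δ i) (B i)) (hc : IsLValue A c) (hb : ∀ i, IsLValue (B i) (b i))
    (hx : IsOmega A x) (hy : ∀ i, IsOmega (B i) (y i)) :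
    (∀ i, y i ≠ 0) ∧ x ≠ 0 ∧ (∃ q : ℚ, q ≠ 0 ∧ c = q * ∏ i, b i) ∧
      ∃ q : ℚ, q ≠ 0 ∧ x = q * ∏ i, y i := by
  let F' : Option (Fin r) → Type := fun o => match o with | none => F | some i => K i
  let i1 : ∀ o, Field (F' o) := fun o => match o with | none => f₁ | some i => f₂ i
  let i2 : ∀ o, NumberField (F' o) := fun o => match o with | none => n₁ | some i => n₂ i
  let i3 : ∀ o, Algebra k (F' o) := fun o => match o with | none => a₁ | some i => a₂ i
  let d' : ∀ o, F' o := fun o => match o with | none => d | some i => δ i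
  let n' : Option (Fin r) → ℤ := fun o => match o with | none => 1 | some _ => -1
  let A' : ∀ o, WeierstrassCurve (F' o) := fun o => match o with | none => A | some i => B i
  let c' : Option (Fin r) → ℂ := fun o => match o with | none => c | some i => b i
  let x' : Option (Fin r) → ℝ := fun o => match o with | none => x | some i => y i
  obtain ⟨h1, ⟨q, hq, h2⟩, ⟨q', hq', h3⟩, -⟩ := hG k E (Option (Fin r)) F' d' n' hE
    (fun o => match o with | none => hd | some i => hδ i)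
    (fun g => by
      rw [Fintype.sum_option]
      change (1 : ℤ) * sgn d g + ∑ i : Fin r, (-1 : ℤ) * sgn (δ i) g = 0
      rw [hrel g, ← Finset.mul_sum]
      ring)
    A' (fun o => match o with | none => hA | some i => hB i) c' x'
    (fun o => match o with | none => hc | some i => hb i)
    (fun o => match o with | none => hx | some i => hy i)
  rw [Fintype.prod_option, Fintype.prod_option] at h2
  rw [Fintype.prod_option] at h3
  change c ^ (1 : ℤ).toNat * ∏ i : Fin r, b i ^ (-1 : ℤ).toNat =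
    q * (c ^ (-1 : ℤ).toNat * ∏ i : Fin r, b i ^ (- -1 : ℤ).toNat) at h2
  change x ^ (1 : ℤ) * ∏ i : Fin r, y i ^ (-1 : ℤ) = q' at h3
  have hy0 : ∀ i, y i ≠ 0 := fun i => h1 (some i)
  refine ⟨hy0, h1 none, ⟨q, hq, ?_⟩, ⟨q', hq', ?_⟩⟩
  · simpa using h2
  · have h4 : x * ∏ i : Fin r, (y i)⁻¹ = q' := by simpa using h3
    rw [← h4, Finset.prod_inv_distrib, mul_assoc,
      inv_mul_cancel₀ (Finset.prod_ne_zero_iff.2 fun i _ => hy0 i), mul_one]

/-- the theorem -/
def RealSplitting : Prop := ∀ (k F : Type) [Field k] [NumberField k] [Field F] [NumberField F]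
    [Algebra k F] (d : F), d ≠ 0 →
  (CommutingCC k F d ↔ ∃ (r : ℕ) (K : Fin r → Type) (_ : ∀ i, Field (K i))
    (_ : ∀ i, NumberField (K i)) (_ : ∀ i, Algebra k (K i)) (δ : ∀ i, K i) (n : Fin r → ℤ),
    (∀ i, δ i ≠ 0) ∧ (∀ i, RealOver k (K i)) ∧
    ∀ g : AlgebraicClosure k ≃ₐ[k] AlgebraicClosure k, sgn d g = ∑ i, n i * sgn (δ i) g) ∧
  (CommutingCC k F d → ∃ (r : ℕ) (K : Fin r → Type) (_ : ∀ i, Field (K i))
    (_ : ∀ i, NumberField (K i)) (_ : ∀ i, Algebra k (K i)) (δ : ∀ i, K i),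
    (∀ i, δ i ≠ 0) ∧ (∀ i, RealOver k (K i)) ∧
    (∀ g : AlgebraicClosure k ≃ₐ[k] AlgebraicClosure k, sgn d g = ∑ i, sgn (δ i) g) ∧
    ∀ (E : WeierstrassCurve k) (A : WeierstrassCurve F) (B : ∀ i, WeierstrassCurve (K i)) (c : ℂ)
      (b : Fin r → ℂ) (x : ℝ) (y : Fin r → ℝ), E.Δ ≠ 0 → IsTwist E d A →
      (∀ i, IsTwist E (δ i) (B i)) → IsLValue A c → (∀ i, IsLValue (B i) (b i)) →
      IsOmega A x → (∀ i, IsOmega (B i) (y i)) →
        (∃ q : ℚ, q ≠ 0 ∧ c = q * ∏ i, b i) ∧ (∃ q : ℚ, q ≠ 0 ∧ x = q * ∏ i, y i) ∧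
        ((∀ i, b i ≠ 0 → ∃ q : ℚ, q ≠ 0 ∧ b i = q * y i) →
          c ≠ 0 → ∃ q : ℚ, q ≠ 0 ∧ c = q * x))

theorem thm_RealSplitting : RealSplitting := by
  intro k F _ _ _ _ _ d hd
  constructor
  · constructor
    · intro hc
      obtain ⟨r, y, hy0, hyr, hyg⟩ := thm_RREL k F d hd hc
      have hfd : ∀ i, FiniteDimensional k k⟮y i ^ 2⟯ := fun i =>
        adjoin.finiteDimensional (Algebra.IsIntegral.isIntegral _)
      refine ⟨r, fun i => k⟮y i ^ 2⟯, fun i => inferInstance, fun i => NumberField.of_module_finite k _,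
        fun i => inferInstance, fun i => AdjoinSimple.gen k (y i ^ 2), fun _ => 1, fun i => ?_, hyr,
        fun g => ?_⟩
      · intro h
        have := congrArg (algebraMap k⟮y i ^ 2⟯ (AlgebraicClosure k)) h
        rw [AdjoinSimple.algebraMap_gen, map_zero] at this
        exact hy0 i (pow_eq_zero_iff two_ne_zero |>.1 this)
      · rw [hyg g]; simp
    · rintro ⟨r, K, _, _, _, δ, n, hδ, hK, hrel⟩
      exact thm_RCNV thm_RCCF k F d (Fin r) K δ n hd hδ hK hrel
  · intro hc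
    obtain ⟨r, y, hy0, hyr, hyg⟩ := thm_RREL k F d hd hc
    have hfd : ∀ i, FiniteDimensional k k⟮y i ^ 2⟯ := fun i =>
      adjoin.finiteDimensional (Algebra.IsIntegral.isIntegral _)
    have hnf : ∀ i, NumberField k⟮y i ^ 2⟯ := fun i => NumberField.of_module_finite k _
    have hδ : ∀ i, AdjoinSimple.gen k (y i ^ 2) ≠ 0 := by
      intro i h
      have := congrArg (algebraMap k⟮y i ^ 2⟯ (AlgebraicClosure k)) h
      rw [AdjoinSimple.algebraMap_gen, map_zero] at this
      exact hy0 i (pow_eq_zero_iff two_ne_zero |>.1 this)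
    refine ⟨r, fun i => k⟮y i ^ 2⟯, fun i => inferInstance, hnf,
      fun i => inferInstance, fun i => AdjoinSimple.gen k (y i ^ 2), hδ, hyr, hyg, ?_⟩
    intro E A B c b x z hE hA hB hc hb hx hz
    obtain ⟨hz0, hx0, ⟨q, hq, h1⟩, ⟨q', hq', h2⟩⟩ := RS_formula all_General hd hδ hyg hE hA hB hc hb hx hz
    refine ⟨⟨q, hq, h1⟩, ⟨q', hq', h2⟩, fun hQ hc0 => ?_⟩
    have hb0 : ∀ i, b i ≠ 0 := fun i h => hc0 (by
      rw [h1, Finset.prod_eq_zero (Finset.mem_univ i) h, mul_zero])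
    choose p hp hbp using fun i => hQ i (hb0 i)
    refine ⟨q * (∏ i, p i) / q', ?_, ?_⟩
    · exact div_ne_zero (mul_ne_zero hq (Finset.prod_ne_zero_iff.2 fun i _ => hp i)) hq'
    · have hq'' : (q' : ℂ) ≠ 0 := by exact_mod_cast hq'
      rw [h1, h2]
      push_cast
      rw [Finset.prod_congr rfl fun i _ => hbp i, Finset.prod_mul_distrib]
      field_simp

end ART
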