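import Pool.Agent.ART.Base

/-!
# ART/RS: splitting of the conjecture into parts over totally real fields (statements of the modules)

`k` is a number field, `Ω` its algebraic closure, `G = Gal(Ω/k)`. A complex conjugation is `c ∈ G` with `j (c x) = conj (j x)`
for an embedding `j : Ω → ℂ`. If any two complex conjugations commute on `F(√d)` and on its conjugates, then the representation
induced from `χ_d` is a sum of representations induced from quadratic characters of fields `K i` which are unramified over `k` at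
the infinite places (totally real if `k` is).

PROOF. `X` = the pairs `(φ, z)`, `z ^ 2 = φ d`, `ν (φ, z) = (φ, -z)`. The complex conjugations generate a group `Z` of permutations of
`X`, elementary abelian, normalised by `G`. For `x ∈ X`, `ψ : Z → ± 1` let `vec x ψ = ∑_z ψ(z) (z x - ν z x)`. The nonzero ones
form a set `B` of functions on `X`, stable under `G` and `- 1`, two of them are equal, opposite or orthogonal, and the trace of `g` on the
odd functions is half of the number of the `f ∈ B` with `g f = f` minus the number of those with `g f = - f`. The complex conjugations act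
by signs on each `f ∈ B`. Finally `f ↦ ∑_x f(x) z_x φ_x(t)` embeds `B` into `Ω`, for some `t ∈ F`. For `y` in the image,
`K = k(y ^ 2)`, `δ = y ^ 2`.
-/

set_option autoImplicit false

namespace ART

open scoped ComplexConjugate
open NumberField IntermediateField

/-- a complex conjugation of the algebraic closure -/
def IsCC (k : Type) [Field k] (c : AlgebraicClosure k ≃ₐ[k] AlgebraicClosure k) : Prop :=
  ∃ j : AlgebraicClosure k →+* ℂ, ∀ x, j (c x) = conj (j x)

/-- any two complex conjugations commute on the conjugates of `F(√d)` -/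
def CommutingCC (k F : Type) [Field k] [Field F] [Algebra k F] (d : F) : Prop :=
  ∀ c c' : AlgebraicClosure k ≃ₐ[k] AlgebraicClosure k, IsCC k c → IsCC k c' →
    ∀ p : Pr k F (AlgebraicClosure k) d,
      (∀ x, c (c' (p.1.1 x)) = c' (c (p.1.1 x))) ∧ c (c' p.1.2) = c' (c p.1.2)

/-- every embedding of `K` which is real on `k` is real: `K / k` is unramified at the infinite places (for `k` totally real:
`K` is totally real) -/
def RealOver (k K : Type) [Field k] [Field K] [Algebra k K] : Prop :=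
  ∀ e : K →+* ℂ, (∀ a : k, conj (e (algebraMap k K a)) = e (algebraMap k K a)) →
    ∀ x, conj (e x) = e x

/-! ### finite permutation groups -/

section

variable {X : Type} [Fintype X] [DecidableEq X]

/-- the function `∑_z ψ(z) (z x - ν z x)` -/
noncomputable def vec (ν : Equiv.Perm X) (Z : Subgroup (Equiv.Perm X)) (x : X) (ψ : Z →* ℤˣ) :
    X → ℤ :=
  fun y => ∑ᶠ z : Z, ((ψ z : ℤˣ) : ℤ) * ((if (z : Equiv.Perm X) x = y then 1 else 0) -
    (if ν ((z : Equiv.Perm X) x) = y then 1 else 0))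

/-- the nonzero ones -/
def BSet (ν : Equiv.Perm X) (Z : Subgroup (Equiv.Perm X)) : Set (X → ℤ) :=
  {f | f ≠ 0 ∧ ∃ x ψ, f = vec ν Z x ψ}

end

/-- [TRC] -/
def St_RTRC : Prop := ∀ (X : Type) [Fintype X] [DecidableEq X] (ν : Equiv.Perm X)
  (Z : Subgroup (Equiv.Perm X)), (∀ x, ν (ν x) = x) → (∀ x, ν x ≠ x) → (∀ z ∈ Z, z * z = 1) →
  (∀ z ∈ Z, z * ν = ν * z) → ∀ g : Equiv.Perm X, g * ν = ν * g → (∀ z ∈ Z, g * z * g⁻¹ ∈ Z) →
  (Nat.card {x : X // g x = x} : ℤ) - Nat.card {x : X // g x = ν x} =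
    (Nat.card {f : BSet ν Z // f.1 ∘ ⇑g = f.1} : ℤ) - Nat.card {f : BSet ν Z // f.1 ∘ ⇑g = -f.1}

/-- [STB] -/
def St_RSTB : Prop := ∀ (X : Type) [Fintype X] [DecidableEq X] (ν : Equiv.Perm X)
  (Z : Subgroup (Equiv.Perm X)), (∀ x, ν (ν x) = x) → (∀ z ∈ Z, z * z = 1) →
  (∀ z ∈ Z, z * ν = ν * z) → (BSet ν Z).Finite ∧ ∀ f ∈ BSet ν Z, -f ∈ BSet ν Z ∧
    (∀ x, f (ν x) = -f x) ∧ (∀ z ∈ Z, f ∘ ⇑z = f ∨ f ∘ ⇑z = -f) ∧
    ∀ g : Equiv.Perm X, g * ν = ν * g → (∀ z ∈ Z, g * z * g⁻¹ ∈ Z) → f ∘ ⇑(g⁻¹) ∈ BSet ν Z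

/-! ### the generic element -/

/-- [GEN] For finitely many nonzero odd functions on the pairs there is an element `t` of `F` at which none of the corresponding linear
functionals vanishes.

PROOF. For an odd `f ≠ 0` the map `ℓ_f : F → Ω`, `t ↦ ∑_x f(x) φ_x(t) z_x` is `k`-linear. It is not zero: let `f(φ₀, z₀) ≠ 0`. The pairs with the first
component `φ` are `(φ, z)` and `(φ, -z)` (`z ≠ 0`), so `ℓ_f = ∑_φ a_φ φ` with `a_φ₀ = 2 f(φ₀, z₀) z₀ ≠ 0`, and the embeddings are linearly
independent over `Ω` (`linearIndependent_monoidHom` or `linearIndependent_toLinearMap`). So the kernels are proper subspaces of the `k`-space `F`, and a finite union of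
them is not `F` (`k` is infinite: `Subspace.biUnion_ne_univ_of_top_notMem`, or `Subspace.exists_eq_top_of_iUnion_eq_univ` or similar). -/
def St_RGEN : Prop := ∀ (k F : Type) [Field k] [NumberField k] [Field F] [NumberField F]
  [Algebra k F] (d : F) [Fintype (Pr k F (AlgebraicClosure k) d)], d ≠ 0 →
  ∀ S : Set (Pr k F (AlgebraicClosure k) d → ℤ), S.Finite → (∀ f ∈ S, f ≠ 0 ∧
    ∀ x y : Pr k F (AlgebraicClosure k) d, x.1.1 = y.1.1 → x.1.2 = -y.1.2 → f x = -f y) →
  ∃ t : F, ∀ f ∈ S, ∑ x, (f x : AlgebraicClosure k) * (x.1.1 t * x.1.2) ≠ 0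

/-! ### the field of an element -/

/-- [FLD] The character of `k(y ^ 2)` with `δ = y ^ 2`, in terms of the conjugates of `y` and `- y`.

PROOF. Let `K = k⟮y ^ 2⟯`. The map from the pairs `(φ, z)` (`φ : K → Ω`, `z ^ 2 = φ (y ^ 2)`) to `z ∈ Ω` is injective (`φ` is determined by
`φ (y ^ 2) = z ^ 2`; `IntermediateField.algHom_ext_of_eq_adjoin` or similar), and its image is the set of the `z` with `z = σ y` or `z = - σ y` for a `σ ∈ G`: `φ` extends to
some `σ ∈ G` (`AlgHom.restrictNormal`, `IsAlgClosed`/`Normal` lift: e.g. `AlgEquiv.liftNormal`, `AlgHom.liftNormal`), `z ^ 2 = (σ y) ^ 2`. And `g φ = φ` iff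
`g (z ^ 2) = z ^ 2` iff `g z = z` or `g z = - z`. -/
def St_RFLD : Prop := ∀ (k : Type) [Field k] [NumberField k] (y : AlgebraicClosure k), y ≠ 0 →
  ∀ g : AlgebraicClosure k ≃ₐ[k] AlgebraicClosure k,
    sgn (F := k⟮y ^ 2⟯) (AdjoinSimple.gen k (y ^ 2)) g =
      (Nat.card {z : AlgebraicClosure k // (∃ σ : AlgebraicClosure k ≃ₐ[k] AlgebraicClosure k,
        z = σ y ∨ z = -σ y) ∧ g z = z} : ℤ) -
      Nat.card {z : AlgebraicClosure k // (∃ σ : AlgebraicClosure k ≃ₐ[k] AlgebraicClosure k,
        z = σ y ∨ z = -σ y) ∧ g z = -z}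

/-- [REAL] If the complex conjugations act by signs on all conjugates of `y`, then `k(y ^ 2)` is unramified at the infinite places.

PROOF. `K = k⟮y ^ 2⟯`, `e : K → ℂ` with `e` real on `k`. Extend `e` to `j : Ω → ℂ` (`Ω` is algebraic over `K`, `IsAlgClosed.lift`). The image `j(Ω)` is the set of the
elements of `ℂ` algebraic over `j(k)`; since `j` is real on `k`, `conj ∘ j : Ω → ℂ` is another `k`-embedding (for the `k`-algebra structure of `ℂ` given by `j`), with the
same image, so there is `c ∈ G` with `j (c x) = conj (j x)`: `IsCC k c`. (E.g. `c` from `AlgHom.restrictNormal'`-like lemmas, or: `IsAlgClosure` equivalence; the `k`-algebra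
`ℂ` by `(j.comp (algebraMap k Ω)).toAlgebra`, `Ω` is normal over `k`, and `conj ∘ j` has values in `j.fieldRange`: `AlgHom.fieldRange_of_normal`.) By the hypothesis
with `g = 1`: `c (y ^ 2) = y ^ 2`, so `conj (e (y ^ 2)) = e (y ^ 2)`, and `e` is real on `K` (generated by `k` and `y ^ 2`). -/
def St_RREAL : Prop := ∀ (k : Type) [Field k] [NumberField k] (y : AlgebraicClosure k),
  (∀ c, IsCC k c → c y = y ∨ c y = -y) → RealOver k k⟮y ^ 2⟯

/-- [CCF] Complex conjugations: they are involutions and a conjugate of a complex conjugation is a complex conjugation. Under a complex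
conjugation every embedding of `K` is fixed if `K / k` is unramified at the infinite places.

PROOF. `j (c (c x)) = conj (conj (j x)) = j x` and `j` is injective. For `g c g⁻¹` take `j ∘ g⁻¹`. For `φ : K → Ω`: `e = j ∘ φ` is real on `k` (`c` is
the identity on `k`), so `j (c (φ x)) = conj (j (φ x)) = j (φ x)`. -/
def St_RCCF : Prop := ∀ (k : Type) [Field k] [NumberField k]
  (c : AlgebraicClosure k ≃ₐ[k] AlgebraicClosure k), IsCC k c →
  (∀ x, c (c x) = x) ∧ (∀ g : AlgebraicClosure k ≃ₐ[k] AlgebraicClosure k, IsCC k (g * c * g⁻¹)) ∧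
  ∀ (K : Type) [Field K] [Algebra k K], RealOver k K → ∀ (φ : K →ₐ[k] AlgebraicClosure k) (x : K),
    c (φ x) = φ x

/-- [CNV] The converse.

PROOF. `c, c'` complex conjugations, `t = c c' c c'`. By `St_RCCF` `c`, `c'` fix all embeddings of `K i`, and act by signs on the `z` with
`z ^ 2 = φ (δ i)` (`(c z) ^ 2 = z ^ 2`). So `t` acts trivially on the pairs for `K i`, `δ i`, and `sgn (δ i) t = sgn (δ i) 1`. So `sgn d t = sgn d 1`, which is the
number of all pairs `(φ, z)` for `F`, `d` (none has `z = - z` as `z ≠ 0`). `sgn d t` is the difference of the numbers of the fixed and of the negated pairs. So all pairs are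
fixed by `t` (finite sets), and `c c' = c' c` on the pairs, because `c ^ 2 = c' ^ 2 = 1`. -/
def St_RCNV : Prop := ∀ (k : Type) [Field k] [NumberField k] (F : Type) [Field F] [NumberField F]
  [Algebra k F] (d : F) (ι : Type) [Fintype ι] (K : ι → Type) [∀ i, Field (K i)]
  [∀ i, NumberField (K i)] [∀ i, Algebra k (K i)] (δ : ∀ i, K i) (n : ι → ℤ), d ≠ 0 →
  (∀ i, δ i ≠ 0) → (∀ i, RealOver k (K i)) →
  (∀ g : AlgebraicClosure k ≃ₐ[k] AlgebraicClosure k, sgn d g = ∑ i, n i * sgn (δ i) g) →
  CommutingCC k F d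

/-- [ORB] A finite set of nonzero elements, stable under `G` and `- 1`, is a disjoint union of sets of conjugates of `y` and `- y`. -/
def St_RORB : Prop := ∀ (k : Type) [Field k] [NumberField k] (W : Set (AlgebraicClosure k)),
  W.Finite → (0 : AlgebraicClosure k) ∉ W → (∀ y ∈ W, -y ∈ W) →
  (∀ y ∈ W, ∀ σ : AlgebraicClosure k ≃ₐ[k] AlgebraicClosure k, σ y ∈ W) →
  ∃ (r : ℕ) (y : Fin r → AlgebraicClosure k), (∀ i, y i ∈ W) ∧
    ∀ g : AlgebraicClosure k ≃ₐ[k] AlgebraicClosure k,
      (Nat.card {z : W // g z = z} : ℤ) - Nat.card {z : W // g z = -z} =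
        ∑ i, sgn (F := k⟮y i ^ 2⟯) (AdjoinSimple.gen k (y i ^ 2)) g

/-- [REL] the relation -/
def St_RREL : Prop := ∀ (k : Type) [Field k] [NumberField k] (F : Type) [Field F] [NumberField F]
  [Algebra k F] (d : F), d ≠ 0 → CommutingCC k F d →
  ∃ (r : ℕ) (y : Fin r → AlgebraicClosure k), (∀ i, y i ≠ 0) ∧ (∀ i, RealOver k k⟮y i ^ 2⟯) ∧
    ∀ g : AlgebraicClosure k ≃ₐ[k] AlgebraicClosure k,
      sgn d g = ∑ i, sgn (F := k⟮y i ^ 2⟯) (AdjoinSimple.gen k (y i ^ 2)) g

end ART
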