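import Pool.Agent.ART.RS.TDef
import Pool.Agent.ART.RS.Main

/-!
# ART/RS: the splitting theorem for a set of automorphisms
-/

set_option autoImplicit false

namespace ART

open scoped ComplexConjugate
open NumberField IntermediateField

namespace RST

variable {k F : Type} [Field k] [NumberField k] [Field F] [NumberField F] [Algebra k F] {d : F}
  {T : Set (AlgebraicClosure k ≃ₐ[k] AlgebraicClosure k)}

/-- the permutations given by `T` -/
def SS (T : Set (AlgebraicClosure k ≃ₐ[k] AlgebraicClosure k)) (d : F) :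
    Set (Equiv.Perm (Pr k F (AlgebraicClosure k) d)) := {p | ∃ c ∈ T, p = RS_pi d c}

theorem S_comm (hc : ActsInv T d) : ∀ x ∈ SS T d, ∀ y ∈ SS T d, x * y = y * x := by
  rintro _ ⟨c, hc1, rfl⟩ _ ⟨c', hc2, rfl⟩
  ext x
  · exact ((hc c hc1 c' hc2 x).1 _).2
  · exact (hc c hc1 c' hc2 x).2.2

theorem S_sq (hc : ActsInv T d) : ∀ x ∈ SS T d, x * x = 1 := by
  rintro _ ⟨c, hc1, rfl⟩
  ext x
  · exact ((hc c hc1 c hc1 x).1 _).1
  · exact (hc c hc1 c hc1 x).2.1

/-- the group -/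
def ZZ (T : Set (AlgebraicClosure k ≃ₐ[k] AlgebraicClosure k)) (d : F) :
    Subgroup (Equiv.Perm (Pr k F (AlgebraicClosure k) d)) := Subgroup.closure (SS T d)

theorem Z_comm (hc : ActsInv T d) {x y : Equiv.Perm (Pr k F (AlgebraicClosure k) d)}
    (hx : x ∈ ZZ T d) (hy : y ∈ ZZ T d) : x * y = y * x := by
  have h := Subgroup.isMulCommutative_closure (S_comm hc)
  have := h.is_comm.comm (⟨x, hx⟩ : Subgroup.closure (SS T d)) ⟨y, hy⟩
  exact congrArg Subtype.val this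

theorem Z_sq (hc : ActsInv T d) : ∀ z ∈ ZZ T d, z * z = 1 := by
  intro z hz
  induction hz using Subgroup.closure_induction with
  | mem x hx => exact S_sq hc x hx
  | one => rw [one_mul]
  | mul x y hx hy h1 h2 =>
    have h3 := Z_comm hc hx hy
    calc x * y * (x * y) = x * (y * x) * y := by group
      _ = x * (x * y) * y := by rw [← h3]
      _ = (x * x) * (y * y) := by group
      _ = 1 := by rw [h1, h2, one_mul]
  | inv x hx h1 => rw [← mul_inv_rev, h1, inv_one]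

theorem Z_nu : ∀ z ∈ ZZ T d, z * RS_nuP d = RS_nuP d * z := by
  intro z hz
  induction hz using Subgroup.closure_induction with
  | mem x hx => obtain ⟨c, _, rfl⟩ := hx; exact RS_pi_nu c
  | one => rw [one_mul, mul_one]
  | mul x y hx hy h1 h2 => rw [mul_assoc, h2, ← mul_assoc, h1, mul_assoc]
  | inv x hx h1 => exact (Commute.inv_left h1).eq

theorem Z_conj (hT : ∀ c ∈ T, ∀ g, g * c * g⁻¹ ∈ T)
    (g : AlgebraicClosure k ≃ₐ[k] AlgebraicClosure k) :
    ∀ z ∈ ZZ T d, RS_pi d g * z * (RS_pi d g)⁻¹ ∈ ZZ T d := by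
  intro z hz
  induction hz using Subgroup.closure_induction with
  | mem x hx =>
    obtain ⟨c, hc, rfl⟩ := hx
    refine Subgroup.subset_closure ⟨g * c * g⁻¹, hT c hc g, ?_⟩
    simp only [map_mul, map_inv]
  | one => rw [mul_one, mul_inv_cancel]; exact Subgroup.one_mem _
  | mul x y hx hy h1 h2 =>
    have := Subgroup.mul_mem _ h1 h2
    have e : RS_pi d g * x * (RS_pi d g)⁻¹ * (RS_pi d g * y * (RS_pi d g)⁻¹) =
      RS_pi d g * (x * y) * (RS_pi d g)⁻¹ := by group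
    rwa [e] at this
  | inv x hx h1 =>
    have := Subgroup.inv_mem _ h1
    have e : (RS_pi d g * x * (RS_pi d g)⁻¹)⁻¹ = RS_pi d g * x⁻¹ * (RS_pi d g)⁻¹ := by group
    rwa [e] at this

/-- the relation -/
theorem rel (hd : d ≠ 0) (hc : ActsInv T d) (hT : ∀ c ∈ T, ∀ g, g * c * g⁻¹ ∈ T) :
    ∃ (r : ℕ) (y : Fin r → AlgebraicClosure k), (∀ i, y i ≠ 0) ∧
      (∀ i, ∀ c ∈ T, c (y i) = y i ∨ c (y i) = -y i) ∧
      ∀ g : AlgebraicClosure k ≃ₐ[k] AlgebraicClosure k,
        sgn d g = ∑ i, sgn (F := k⟮y i ^ 2⟯) (AdjoinSimple.gen k (y i ^ 2)) g := by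
  classical
  have hνν : ∀ x : Pr k F (AlgebraicClosure k) d, RS_nuP d (RS_nuP d x) = x := fun x => by
    ext
    · rfl
    · exact neg_neg _
  have hνx : ∀ x : Pr k F (AlgebraicClosure k) d, RS_nuP d x ≠ x := fun x h => by
    have h1 : -x.1.2 = x.1.2 := congrArg (fun x => x.1.2) h
    have h2 : x.1.2 = 0 := self_eq_neg.1 h1.symm
    have h3 := x.2
    rw [h2, zero_pow two_ne_zero] at h3
    exact hd ((map_eq_zero x.1.1).1 h3.symm)
  obtain ⟨hBfin, hB⟩ := thm_RSTB _ (RS_nuP d) (ZZ T d) hνν (Z_sq hc) Z_nu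
  obtain ⟨t, ht⟩ := thm_RGEN k F d hd
    (BSet (RS_nuP d) (ZZ T d) ∪ ((fun p : (Pr k F (AlgebraicClosure k) d → ℤ) × _ => p.1 - p.2) ''
      {p | p.1 ∈ BSet (RS_nuP d) (ZZ T d) ∧ p.2 ∈ BSet (RS_nuP d) (ZZ T d) ∧ p.1 ≠ p.2}))
    (hBfin.union (Set.Finite.image _ ((hBfin.prod hBfin).subset fun p hp => ⟨hp.1, hp.2.1⟩))) (by
      have hodd : ∀ f ∈ BSet (RS_nuP d) (ZZ T d), ∀ x y : Pr k F (AlgebraicClosure k) d,
          x.1.1 = y.1.1 → x.1.2 = -y.1.2 → f x = -f y := by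
        intro f hf x y h1 h2
        have h3 : x = RS_nuP d y := Subtype.ext (Prod.ext h1 h2)
        rw [h3]; exact (hB f hf).2.1 y
      rintro f (hf | ⟨⟨f₁, f₂⟩, ⟨h1, h2, h3⟩, rfl⟩)
      · exact ⟨hf.1, hodd f hf⟩
      · refine ⟨sub_ne_zero.2 h3, fun x y h4 h5 => ?_⟩
        have e1 := hodd f₁ h1 x y h4 h5
        have e2 := hodd f₂ h2 x y h4 h5
        simp only [Pi.sub_apply]
        omega)
  have hev0 : ∀ f ∈ BSet (RS_nuP d) (ZZ T d), RS_ev t f ≠ 0 := fun f hf => ht f (Or.inl hf)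
  have hinj : ∀ f ∈ BSet (RS_nuP d) (ZZ T d), ∀ f' ∈ BSet (RS_nuP d) (ZZ T d),
      RS_ev t f = RS_ev t f' → f = f' := by
    intro f hf f' hf' h
    by_contra hne
    refine ht (f - f') (Or.inr ⟨(f, f'), ⟨hf, hf', hne⟩, rfl⟩) ?_
    change RS_ev t (f - f') = 0
    rw [RS_ev_sub, h, sub_self]
  set W : Set (AlgebraicClosure k) := RS_ev t '' BSet (RS_nuP d) (ZZ T d) with hW
  have hgalB : ∀ f ∈ BSet (RS_nuP d) (ZZ T d), ∀ g : AlgebraicClosure k ≃ₐ[k] AlgebraicClosure k,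
      f ∘ ⇑(RS_pi d g)⁻¹ ∈ BSet (RS_nuP d) (ZZ T d) := fun f hf g =>
    (hB f hf).2.2.2 (RS_pi d g) (RS_pi_nu g) (Z_conj hT g)
  obtain ⟨r, y, hy, hyg⟩ := thm_RORB thm_RFLD k W (hBfin.image _) (by
      rintro ⟨f, hf, h⟩; exact hev0 f hf h) (by
      rintro _ ⟨f, hf, rfl⟩
      exact ⟨-f, (hB f hf).1, RS_ev_neg t f⟩) (by
      rintro _ ⟨f, hf, rfl⟩ σ
      exact ⟨_, hgalB f hf σ, (RS_ev_gal t f σ).symm⟩)
  refine ⟨r, y, fun i => ?_, fun i c hcT => ?_, fun g => ?_⟩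
  · obtain ⟨f, hf, h⟩ := hy i
    rw [← h]; exact hev0 f hf
  · obtain ⟨f, hf, h⟩ := hy i
    rw [← h, RS_ev_gal]
    have h1 : (RS_pi d c)⁻¹ ∈ ZZ T d :=
      Subgroup.inv_mem _ (Subgroup.subset_closure ⟨c, hcT, rfl⟩)
    rcases (hB f hf).2.2.1 _ h1 with h2 | h2
    · left; rw [h2]
    · right; rw [h2, RS_ev_neg]
  · rw [← hyg g]
    have h1 := thm_RTRC _ (RS_nuP d) (ZZ T d) hνν hνx (Z_sq hc) Z_nu (RS_pi d g)
      (RS_pi_nu g) (Z_conj hT g)
    have e1 : sgn d g = (Nat.card {x : Pr k F (AlgebraicClosure k) d // RS_pi d g x = x} : ℤ) -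
        Nat.card {x : Pr k F (AlgebraicClosure k) d // RS_pi d g x = RS_nuP d x} := by
      rw [sgn]
      congr 2
      · refine Nat.card_congr (Equiv.subtypeEquivRight fun x => ?_)
        rw [Subtype.ext_iff, Prod.ext_iff]; rfl
      · refine Nat.card_congr (Equiv.subtypeEquivRight fun x => ?_)
        rw [Subtype.ext_iff, Prod.ext_iff]; rfl
    rw [e1, h1]
    have hcomp : ∀ f f' : Pr k F (AlgebraicClosure k) d → ℤ,
        f ∘ ⇑(RS_pi d g) = f' ↔ f = f' ∘ ⇑(RS_pi d g)⁻¹ := by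
      intro f f'
      constructor
      · rintro rfl
        funext x
        rw [Function.comp_apply, Function.comp_apply, ← Equiv.Perm.mul_apply, mul_inv_cancel,
          Equiv.Perm.one_apply]
      · rintro rfl
        funext x
        rw [Function.comp_apply, Function.comp_apply, ← Equiv.Perm.mul_apply, inv_mul_cancel,
          Equiv.Perm.one_apply]
    let E : BSet (RS_nuP d) (ZZ T d) ≃ W :=
      Equiv.ofBijective (fun f => ⟨RS_ev t f.1, f.1, f.2, rfl⟩) ⟨by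
        intro f f' h
        exact Subtype.ext (hinj f.1 f.2 f'.1 f'.2 (congrArg Subtype.val h)), by
        rintro ⟨_, f, hf, rfl⟩
        exact ⟨⟨f, hf⟩, rfl⟩⟩
    have hE : ∀ f, ((E f : W) : AlgebraicClosure k) = RS_ev t f.1 := fun f => rfl
    congr 2
    · refine Nat.card_congr (E.subtypeEquiv fun f => ?_)
      rw [hE, RS_ev_gal, hcomp]
      constructor
      · intro h; rw [← h]
      · intro h; exact (hinj _ (hgalB f.1 f.2 g) _ f.2 h).symm
    · refine Nat.card_congr (E.subtypeEquiv fun f => ?_)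
      rw [hE, RS_ev_gal, hcomp, ← RS_ev_neg]
      constructor
      · intro h
        have h3 : f.1 ∘ ⇑(RS_pi d g)⁻¹ = -f.1 := by
          funext x
          have h4 := congrFun h x
          simp only [Function.comp_apply, Pi.neg_apply] at h4 ⊢
          omega
        rw [h3]
      · intro h
        have h3 := hinj _ (hgalB f.1 f.2 g) _ (hB f.1 f.2).1 h
        funext x
        have h4 := congrFun h3 x
        simp only [Function.comp_apply, Pi.neg_apply] at h4 ⊢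
        omega

/-- the fields of the relation -/
theorem trivialOn (hT : ∀ c ∈ T, ∀ g, g * c * g⁻¹ ∈ T) {y : AlgebraicClosure k}
    (hy : ∀ c ∈ T, c y = y ∨ c y = -y) : TrivialOn T k⟮y ^ 2⟯ := by
  intro c hc φ x
  have h1 : (c : AlgebraicClosure k →ₐ[k] AlgebraicClosure k).comp φ = φ := by
    refine RFLD.ext_gen ?_
    obtain ⟨z, hz⟩ : ∃ z : AlgebraicClosure k, z ^ 2 = φ (AdjoinSimple.gen k (y ^ 2)) :=
      IsAlgClosed.exists_pow_nat_eq _ two_pos
    obtain ⟨σ, hσ⟩ := RFLD.exists_conj y φ z hz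
    change c (φ (AdjoinSimple.gen k (y ^ 2))) = φ (AdjoinSimple.gen k (y ^ 2))
    rw [← hz]
    have h2 : z ^ 2 = σ (y ^ 2) := by
      rcases hσ with h | h
      · rw [h, map_pow]
      · rw [h, neg_sq, map_pow]
    rw [h2]
    have h3 := hT c hc σ⁻¹
    rw [inv_inv] at h3
    have h4 : (σ⁻¹ * c * σ) (y ^ 2) = y ^ 2 := by
      rw [map_pow]
      rcases hy _ h3 with h | h
      · rw [h]
      · rw [h, neg_sq]
    have h5 := congrArg σ h4
    rw [← AlgEquiv.mul_apply] at h5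
    have h6 : σ * (σ⁻¹ * c * σ) = c * σ := by group
    rw [h6] at h5
    exact h5
  exact DFunLike.congr_fun h1 x

/-- for the complex conjugations -/
theorem real_of_trivialOn {K : Type} [Field K] [Algebra k K] [Algebra.IsAlgebraic k K]
    (h : TrivialOn (conjugations k) K) : RealOver k K := by
  intro e he x
  obtain ⟨φ⟩ : Nonempty (K →ₐ[k] AlgebraicClosure k) := ⟨IsAlgClosed.lift⟩
  let _ : Algebra K (AlgebraicClosure k) := φ.toRingHom.toAlgebra
  let _ : Algebra K ℂ := e.toAlgebra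
  have _s : IsScalarTower k K (AlgebraicClosure k) :=
    IsScalarTower.of_algebraMap_eq fun a => (φ.commutes a).symm
  have _i : Algebra.IsAlgebraic K (AlgebraicClosure k) := Algebra.IsAlgebraic.tower_top (K := k) K
  let J : AlgebraicClosure k →ₐ[K] ℂ := IsAlgClosed.lift
  have hJ : ∀ z : K, J (φ z) = e z := fun z => J.commutes z
  obtain ⟨c, hc⟩ := RREAL_cc k J.toRingHom fun a => by
    have h1 := he a
    have h2 := hJ (algebraMap k K a)
    rw [φ.commutes] at h2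
    rw [← h2] at h1
    exact h1
  have h3 := hc (φ x)
  rw [h c ⟨_, hc⟩ φ x] at h3
  rw [← hJ x]
  exact h3.symm

end RST

end ART
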