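import Pool.Agent.ART.Base

/-!
# ART/RS: definitions for the splitting theorem

`Ω = AlgebraicClosure k`, `Pr k F Ω d` = the pairs of an embedding `φ : F → Ω` and a square root of `φ d`.
-/

set_option autoImplicit false

namespace ART

open scoped ComplexConjugate
open NumberField

/-- the elements of `T` act on the Galois closure of `F(√d)` (on the conjugates of `F` and on the square roots of the conjugates
of `d`) as commuting involutions -/
def ActsInv {k : Type} [Field k] (T : Set (AlgebraicClosure k ≃ₐ[k] AlgebraicClosure k))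
    {F : Type} [Field F] [Algebra k F] (d : F) : Prop :=
  ∀ c ∈ T, ∀ c' ∈ T, ∀ p : Pr k F (AlgebraicClosure k) d,
    (∀ x, c (c (p.1.1 x)) = p.1.1 x ∧ c (c' (p.1.1 x)) = c' (c (p.1.1 x))) ∧
      c (c p.1.2) = p.1.2 ∧ c (c' p.1.2) = c' (c p.1.2)

/-- the elements of `T` are trivial on the conjugates of `K` -/
def TrivialOn {k : Type} [Field k] (T : Set (AlgebraicClosure k ≃ₐ[k] AlgebraicClosure k))
    (K : Type) [Field K] [Algebra k K] : Prop :=
  ∀ c ∈ T, ∀ (φ : K →ₐ[k] AlgebraicClosure k) (x : K), c (φ x) = φ x

/-- the complex conjugations of the algebraic closure: `j (c x) = conj (j x)` for an embedding `j` into `ℂ` -/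
def conjugations (k : Type) [Field k] : Set (AlgebraicClosure k ≃ₐ[k] AlgebraicClosure k) :=
  {c | ∃ j : AlgebraicClosure k →+* ℂ, ∀ x, j (c x) = conj (j x)}

end ART
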