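import Pool.Agent.ART.RS.T

/-!
# ART/RS: the splitting theorem
-/

set_option autoImplicit false

namespace ART

open NumberField IntermediateField

/-- the splitting theorem -/
def Splitting : Prop := ∀ (k F : Type) [Field k] [NumberField k] [Field F] [NumberField F]
    [Algebra k F] (d : F) (T : Set (AlgebraicClosure k ≃ₐ[k] AlgebraicClosure k)), d ≠ 0 →
    (∀ c ∈ T, ∀ g, g * c * g⁻¹ ∈ T) →
  (ActsInv T d ↔ ∃ (r : ℕ) (K : Fin r → Type) (_ : ∀ i, Field (K i))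
    (_ : ∀ i, NumberField (K i)) (_ : ∀ i, Algebra k (K i)) (δ : ∀ i, K i) (n : Fin r → ℤ),
    (∀ i, δ i ≠ 0) ∧ (∀ i, TrivialOn T (K i)) ∧
    ∀ g : AlgebraicClosure k ≃ₐ[k] AlgebraicClosure k, sgn d g = ∑ i, n i * sgn (δ i) g) ∧
  (ActsInv T d → ∃ (r : ℕ) (K : Fin r → Type) (_ : ∀ i, Field (K i))
    (_ : ∀ i, NumberField (K i)) (_ : ∀ i, Algebra k (K i)) (δ : ∀ i, K i),
    (∀ i, δ i ≠ 0) ∧ (∀ i, TrivialOn T (K i)) ∧
    (conjugations k ⊆ T → ∀ i, RealOver k (K i)) ∧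
    (∀ g : AlgebraicClosure k ≃ₐ[k] AlgebraicClosure k, sgn d g = ∑ i, sgn (δ i) g) ∧
    ∀ (E : WeierstrassCurve k) (A : WeierstrassCurve F) (B : ∀ i, WeierstrassCurve (K i)) (c : ℂ)
      (b : Fin r → ℂ) (x : ℝ) (y : Fin r → ℝ), E.Δ ≠ 0 → IsTwist E d A →
      (∀ i, IsTwist E (δ i) (B i)) → IsLValue A c → (∀ i, IsLValue (B i) (b i)) →
      IsOmega A x → (∀ i, IsOmega (B i) (y i)) →
        (∃ q : ℚ, q ≠ 0 ∧ c = q * ∏ i, b i) ∧ (∃ q : ℚ, q ≠ 0 ∧ x = q * ∏ i, y i) ∧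
        ((∀ i, b i ≠ 0 → ∃ q : ℚ, q ≠ 0 ∧ b i = q * y i) →
          c ≠ 0 → ∃ q : ℚ, q ≠ 0 ∧ c = q * x))

namespace RST

theorem pr_ne {k F M : Type} [Field k] [Field F] [Field M] [CharZero M] [Algebra k F]
    [Algebra k M] {d : F} (hd : d ≠ 0) (x : Pr k F M d) : x.1.2 ≠ - x.1.2 := by
  intro h
  have h1 : x.1.2 = 0 := self_eq_neg.1 h
  have h2 := x.2
  rw [h1, zero_pow two_ne_zero] at h2
  exact hd ((map_eq_zero x.1.1).1 h2.symm)

theorem sgn_all {k F M : Type} [Field k] [Field F] [Field M] [CharZero M] [Algebra k F]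
    [Algebra k M] {d : F} (hd : d ≠ 0) (g : M ≃ₐ[k] M)
    (hg : ∀ x : Pr k F M d, (g : M →ₐ[k] M).comp x.1.1 = x.1.1 ∧ g x.1.2 = x.1.2) :
    sgn d g = Nat.card (Pr k F M d) := by
  unfold sgn
  have h1 : Nat.card {x : Pr k F M d // (g : M →ₐ[k] M).comp x.1.1 = x.1.1 ∧ g x.1.2 = - x.1.2} =
      0 := by
    rw [Nat.card_eq_zero]
    left
    constructor
    rintro ⟨x, hx⟩
    exact pr_ne hd x ((hg x).2.symm.trans hx.2)
  have h2 : Nat.card {x : Pr k F M d // (g : M →ₐ[k] M).comp x.1.1 = x.1.1 ∧ g x.1.2 = x.1.2} =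
      Nat.card (Pr k F M d) :=
    Nat.card_congr (Equiv.subtypeUnivEquiv hg)
  rw [h1, h2]
  simp

theorem all_sgn {k F M : Type} [Field k] [Field F] [Field M] [CharZero M] [Algebra k F]
    [Algebra k M] [FiniteDimensional k F] {d : F} (g : M ≃ₐ[k] M)
    (hg : sgn d g = Nat.card (Pr k F M d)) (x : Pr k F M d) :
    (g : M →ₐ[k] M).comp x.1.1 = x.1.1 ∧ g x.1.2 = x.1.2 := by
  unfold sgn at hg
  have h1 : Nat.card (Pr k F M d) ≤
      Nat.card {x : Pr k F M d // (g : M →ₐ[k] M).comp x.1.1 = x.1.1 ∧ g x.1.2 = x.1.2} := by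
    have : (0 : ℤ) ≤ (Nat.card {x : Pr k F M d //
      (g : M →ₐ[k] M).comp x.1.1 = x.1.1 ∧ g x.1.2 = - x.1.2} : ℤ) := Int.natCast_nonneg _
    omega
  have h2 : Function.Bijective (Subtype.val :
      {x : Pr k F M d // (g : M →ₐ[k] M).comp x.1.1 = x.1.1 ∧ g x.1.2 = x.1.2} → Pr k F M d) := by
    rw [Nat.bijective_iff_injective_and_card]
    exact ⟨Subtype.val_injective, le_antisymm
      (Nat.card_le_card_of_injective _ Subtype.val_injective) h1⟩
  obtain ⟨y, rfl⟩ := h2.2 x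
  exact y.2

/-- the converse -/
theorem conv {k F : Type} [Field k] [NumberField k] [Field F] [NumberField F] [Algebra k F] {d : F}
    {T : Set (AlgebraicClosure k ≃ₐ[k] AlgebraicClosure k)} {ι : Type} [Fintype ι] {K : ι → Type}
    [∀ i, Field (K i)] [∀ i, NumberField (K i)] [∀ i, Algebra k (K i)] {δ : ∀ i, K i} {n : ι → ℤ}
    (hd : d ≠ 0) (hδ : ∀ i, δ i ≠ 0) (hK : ∀ i, TrivialOn T (K i))
    (hrel : ∀ g : AlgebraicClosure k ≃ₐ[k] AlgebraicClosure k, sgn d g = ∑ i, n i * sgn (δ i) g) :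
    ActsInv T d := by
  have hk : FiniteDimensional k F := Module.Finite.of_restrictScalars_finite ℚ k F
  -- an element which is trivial on all the pairs of the `K i`
  have key : ∀ t : AlgebraicClosure k ≃ₐ[k] AlgebraicClosure k,
      (∀ i, ∀ x : Pr k (K i) (AlgebraicClosure k) (δ i),
        (t : AlgebraicClosure k →ₐ[k] AlgebraicClosure k).comp x.1.1 = x.1.1 ∧ t x.1.2 = x.1.2) →
      ∀ p : Pr k F (AlgebraicClosure k) d, (∀ x, t (p.1.1 x) = p.1.1 x) ∧ t p.1.2 = p.1.2 := by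
    intro t h1 p
    have h2 : ∀ i, sgn (δ i) t =
        sgn (δ i) (1 : AlgebraicClosure k ≃ₐ[k] AlgebraicClosure k) := by
      intro i
      rw [sgn_all (hδ i) t (h1 i), sgn_all (hδ i) 1 fun x => ⟨by ext u; rfl, rfl⟩]
    have h3 : sgn d t = Nat.card (Pr k F (AlgebraicClosure k) d) := by
      rw [← sgn_all hd (1 : AlgebraicClosure k ≃ₐ[k] AlgebraicClosure k)
        fun x => ⟨by ext u; rfl, rfl⟩, hrel, hrel]
      exact Finset.sum_congr rfl fun i _ => by rw [h2 i]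
    obtain ⟨h4, h5⟩ := all_sgn t h3 p
    exact ⟨fun x => DFunLike.congr_fun h4 x, h5⟩
  have sign : ∀ c ∈ T, ∀ i, ∀ x : Pr k (K i) (AlgebraicClosure k) (δ i),
      c x.1.2 = x.1.2 ∨ c x.1.2 = - x.1.2 := by
    intro c hc i x
    apply sq_eq_sq_iff_eq_or_eq_neg.1
    rw [← map_pow, x.2, hK i c hc]
  intro c hc c' hc' p
  have h1 := key (c * c) (fun i x => by
    refine ⟨?_, ?_⟩
    · ext u
      change c (c (x.1.1 u)) = x.1.1 u
      rw [hK i c hc, hK i c hc]
    · change c (c x.1.2) = x.1.2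
      rcases sign c hc i x with e | e <;> simp [e]) p
  have h1' := key (c' * c') (fun i x => by
    refine ⟨?_, ?_⟩
    · ext u
      change c' (c' (x.1.1 u)) = x.1.1 u
      rw [hK i c' hc', hK i c' hc']
    · change c' (c' x.1.2) = x.1.2
      rcases sign c' hc' i x with e | e <;> simp [e]) p
  have h2 := key (c'⁻¹ * c⁻¹ * c' * c) (fun i x => by
    have e5 : ∀ a b : AlgebraicClosure k ≃ₐ[k] AlgebraicClosure k, ∀ z, a (b z) = b (a z) →
        (b⁻¹ * a⁻¹ * b * a) z = z := by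
      intro a b z h
      rw [AlgEquiv.mul_apply, AlgEquiv.mul_apply, ← h, AlgEquiv.mul_apply, ← AlgEquiv.mul_apply a⁻¹,
        inv_mul_cancel, AlgEquiv.one_apply, ← AlgEquiv.mul_apply, inv_mul_cancel, AlgEquiv.one_apply]
    refine ⟨?_, ?_⟩
    · ext u
      exact e5 c c' (x.1.1 u) (by
        rw [hK i c' hc' x.1.1 u, hK i c hc x.1.1 u]; exact (hK i c' hc' x.1.1 u).symm)
    · exact e5 c c' _ (by
        rcases sign c hc i x with e | e <;> rcases sign c' hc' i x with e' | e' <;> simp [e, e'])) p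
  have e6 : ∀ z, (c'⁻¹ * c⁻¹ * c' * c) z = z → c (c' z) = c' (c z) := by
    intro z hz
    have h7 : (c * c') ((c'⁻¹ * c⁻¹ * c' * c) z) = (c' * c) z := by
      rw [← AlgEquiv.mul_apply]
      congr 1
      group
    rw [hz] at h7
    exact h7
  exact ⟨fun x => ⟨h1.1 x, e6 _ (h2.1 x)⟩, h1.2, e6 _ h2.2⟩

end RST

theorem thm_Splitting (hG : General) : Splitting := by
  intro k F _ _ _ _ _ d T hd hT
  constructor
  · constructor
    · intro hc
      obtain ⟨r, y, hy0, hyr, hyg⟩ := RST.rel hd hc hT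
      have hfd : ∀ i, FiniteDimensional k k⟮y i ^ 2⟯ := fun i =>
        adjoin.finiteDimensional (Algebra.IsIntegral.isIntegral _)
      refine ⟨r, fun i => k⟮y i ^ 2⟯, fun i => inferInstance, fun i => NumberField.of_module_finite k _,
        fun i => inferInstance, fun i => AdjoinSimple.gen k (y i ^ 2), fun _ => 1, fun i => ?_,
        fun i => RST.trivialOn hT (hyr i), fun g => ?_⟩
      · intro h
        have := congrArg (algebraMap k⟮y i ^ 2⟯ (AlgebraicClosure k)) h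
        rw [AdjoinSimple.algebraMap_gen, map_zero] at this
        exact hy0 i (pow_eq_zero_iff two_ne_zero |>.1 this)
      · rw [hyg g]; simp
    · rintro ⟨r, K, _, _, _, δ, n, hδ, hK, hrel⟩
      exact RST.conv hd hδ hK hrel
  · intro hc
    obtain ⟨r, y, hy0, hyr, hyg⟩ := RST.rel hd hc hT
    have hfd : ∀ i, FiniteDimensional k k⟮y i ^ 2⟯ := fun i =>
      adjoin.finiteDimensional (Algebra.IsIntegral.isIntegral _)
    have hnf : ∀ i, NumberField k⟮y i ^ 2⟯ := fun i => NumberField.of_module_finite k _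
    have hδ : ∀ i, AdjoinSimple.gen k (y i ^ 2) ≠ 0 := by
      intro i h
      have := congrArg (algebraMap k⟮y i ^ 2⟯ (AlgebraicClosure k)) h
      rw [AdjoinSimple.algebraMap_gen, map_zero] at this
      exact hy0 i (pow_eq_zero_iff two_ne_zero |>.1 this)
    refine ⟨r, fun i => k⟮y i ^ 2⟯, fun i => inferInstance, hnf,
      fun i => inferInstance, fun i => AdjoinSimple.gen k (y i ^ 2), hδ,
      fun i => RST.trivialOn hT (hyr i), fun hcT i => ?_, hyg, ?_⟩
    · exact RST.real_of_trivialOn fun c hc => RST.trivialOn hT (hyr i) c (hcT hc)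
    intro E A B c b x z hE hA hB hc hb hx hz
    obtain ⟨hz0, hx0, ⟨q, hq, h1⟩, ⟨q', hq', h2⟩⟩ := RS_formula hG hd hδ hyg hE hA hB hc hb hx hz
    refine ⟨⟨q, hq, h1⟩, ⟨q', hq', h2⟩, fun hQ hc0 => ?_⟩
    have hb0 : ∀ i, b i ≠ 0 := fun i h => hc0 (by
      rw [h1, Finset.prod_eq_zero (Finset.mem_univ i) h, mul_zero])
    choose p hp hbp using fun i => hQ i (hb0 i)
    refine ⟨q * (∏ i, p i) / q', ?_, ?_⟩
    · exact div_ne_zero (mul_ne_zero hq (Finset.prod_ne_zero_iff.2 fun i _ => hp i)) hq'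
    · have hq'' : (q' : ℂ) ≠ 0 := by exact_mod_cast hq'
      rw [h1, h2]
      push_cast
      rw [Finset.prod_congr rfl fun i _ => hbp i, Finset.prod_mul_distrib]
      field_simp

theorem all_Splitting : Splitting := thm_Splitting all_General

end ART
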